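import Pool.Agent.H52EH.Color
import Pool.Agent.H60EH.Levels

/-!
# The core of a graph which is not a countable union of triangle-free graphs
-/

namespace Pool.Agent.H33Core

open Set Cardinal Pool.Agent.H52EH

universe u

/-- The vertices `x` with a set `W` of neighbours which spans a graph of uncountable chromatic
number, and all of whose finite subsets have more than `μ` common neighbours in `Q`. -/
def Gam {V : Type u} (G : SimpleGraph V) (μ : Cardinal.{u}) (Q : Set V) : Set V :=
  {x | ∃ W : Set V, (∀ y ∈ W, G.Adj x y) ∧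
    (¬∃ c : V → ℕ, ∀ y ∈ W, ∀ z ∈ W, G.Adj y z → c y ≠ c z) ∧
    ∀ F : Finset V, ↑F ⊆ W → μ < #{z | z ∈ Q ∧ ∀ y ∈ F, G.Adj z y}}

/-- Removing points along the ordinals. -/
theorem exists_rank {V : Type u} (Γ : Set V → Set V) :
    ∃ (Q : Set V) (rk : V → Ordinal.{u}), Q ⊆ Γ Q ∧ ∀ x ∉ Q, x ∉ Γ {z | rk x ≤ rk z} := by
  classical
  let rest : Ordinal.{u} → Set V := (Ordinal.lt_wf.{u}).fix
    fun α r => {x | ∀ β, ∀ h : β < α, x ∈ Γ (r β h)}
  have hrest : ∀ α, rest α = {x | ∀ β < α, x ∈ Γ (rest β)} := fun α =>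
    (Ordinal.lt_wf.{u}).fix_eq _ α
  have hex : ∃ α, rest α ⊆ Γ (rest α) := by
    by_contra hcon
    push Not at hcon
    have h1 : ∀ α, ∃ x, x ∈ rest α ∧ x ∉ Γ (rest α) := fun α => not_subset.1 (hcon α)
    choose f hf1 hf2 using h1
    refine not_injective_of_ordinal f ?_
    intro α β hαβ
    rcases lt_trichotomy α β with h | h | h
    · exfalso
      have h2 := hf1 β
      rw [hrest β] at h2
      exact hf2 α (hαβ ▸ h2 α h)
    · exact h
    · exfalso
      have h2 := hf1 α
      rw [hrest α] at h2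
      exact hf2 β (hαβ ▸ h2 β h)
  obtain ⟨α, hα⟩ := hex
  let B : V → Set Ordinal.{u} := fun x => {β | β = α ∨ x ∉ Γ (rest β)}
  have hB : ∀ x, (B x).Nonempty := fun x => ⟨α, Or.inl rfl⟩
  let rk : V → Ordinal.{u} := fun x => sInf (B x)
  have hrk1 : ∀ x, rk x ∈ B x := fun x => csInf_mem (hB x)
  have hrk2 : ∀ x β, β ∈ B x → rk x ≤ β := fun x β h => csInf_le' h
  refine ⟨rest α, rk, hα, ?_⟩
  intro x hx
  rw [hrest α] at hx
  have hx' : ∃ β, β < α ∧ x ∉ Γ (rest β) := by
    by_contra hcon
    push Not at hcon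
    exact hx hcon
  obtain ⟨β, hβ, hxβ⟩ := hx'
  have hlt : rk x < α := (hrk2 x β (Or.inr hxβ)).trans_lt hβ
  have hxr : x ∉ Γ (rest (rk x)) := (hrk1 x).resolve_left hlt.ne
  have heq : rest (rk x) = {z | rk x ≤ rk z} := by
    rw [hrest (rk x)]
    ext z
    constructor
    · intro hz
      change rk x ≤ rk z
      rcases hrk1 z with h | h
      · rw [h]
        exact hlt.le
      · by_contra hcon
        exact h (hz (rk z) (not_le.1 hcon))
    · intro hz γ hγ
      by_contra hcon
      have h1 : rk z ≤ γ := hrk2 z γ (Or.inr hcon)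
      exact absurd (hγ.trans_le (show rk x ≤ rk z from hz)) (not_lt.2 h1)
  rw [heq] at hxr
  exact hxr

section glue

variable {V : Type u}

lemma triColorable_mono {G H : SimpleGraph V} (h : H ≤ G) (hG : TriColorable G) :
    TriColorable H := by
  obtain ⟨c, hc1, hc2⟩ := hG
  exact ⟨c, hc1, fun x y z hxy hyz hxz => hc2 x y z (h hxy) (h hyz) (h hxz)⟩

lemma triColorable_sup {G H : SimpleGraph V} (hG : TriColorable G) (hH : TriColorable H) :
    TriColorable (G ⊔ H) := by
  classical
  obtain ⟨c, hc1, hc2⟩ := hG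
  obtain ⟨d, hd1, hd2⟩ := hH
  refine ⟨fun x y => if G.Adj x y then 2 * c x y else 2 * d x y + 1, ?_, ?_⟩
  · intro x y
    simp only [G.adj_comm x y, hc1 x y, hd1 x y]
  · rintro x y z hxy hyz hxz ⟨h1, h2⟩
    rw [SimpleGraph.sup_adj] at hxy hyz hxz
    simp only at h1 h2
    by_cases gxy : G.Adj x y <;> by_cases gyz : G.Adj y z <;> by_cases gxz : G.Adj x z <;>
      simp only [gxy, gyz, gxz, if_true, if_false] at h1 h2
    · exact hc2 x y z gxy gyz gxz ⟨by omega, by omega⟩
    · omega
    · omega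
    · omega
    · omega
    · omega
    · omega
    · exact hd2 x y z (hxy.resolve_left gxy) (hyz.resolve_left gyz) (hxz.resolve_left gxz)
        ⟨by omega, by omega⟩

/-- the edges inside the classes of a partition -/
def inner {ι : Type*} (G : SimpleGraph V) (lev : V → ι) : SimpleGraph V where
  Adj x y := G.Adj x y ∧ lev x = lev y
  symm := ⟨fun _ _ h => ⟨h.1.symm, h.2.symm⟩⟩
  loopless := ⟨fun _ h => G.loopless.irrefl _ h.1⟩

/-- the edges between different classes of a partition -/
def cross {ι : Type*} (G : SimpleGraph V) (lev : V → ι) : SimpleGraph V where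
  Adj x y := G.Adj x y ∧ lev x ≠ lev y
  symm := ⟨fun _ _ h => ⟨h.1.symm, h.2.symm⟩⟩
  loopless := ⟨fun _ h => G.loopless.irrefl _ h.1⟩

lemma le_inner_sup_cross {ι : Type*} (G : SimpleGraph V) (lev : V → ι) :
    G ≤ inner G lev ⊔ cross G lev := by
  intro x y h
  rw [SimpleGraph.sup_adj]
  by_cases hl : lev x = lev y
  · exact Or.inl ⟨h, hl⟩
  · exact Or.inr ⟨h, hl⟩

lemma triColorable_inner {ι : Type*} (G : SimpleGraph V) (lev : V → ι)
    (h : ∀ i, TriColorable (G.comap (Subtype.val : {x // lev x = i} → V))) :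
    TriColorable (inner G lev) := by
  classical
  have hlevel : ∀ i : ι, ∃ c : V → V → ℕ, (∀ x y, c x y = c y x) ∧
      ∀ x y z, lev x = i → lev y = i → lev z = i → G.Adj x y → G.Adj y z → G.Adj x z →
        ¬(c x y = c y z ∧ c y z = c x z) := by
    intro i
    obtain ⟨c, hc1, hc2⟩ := h i
    refine ⟨fun x y => if h : lev x = i ∧ lev y = i then c ⟨x, h.1⟩ ⟨y, h.2⟩ else 0, ?_, ?_⟩
    · intro x y
      by_cases h : lev x = i ∧ lev y = i
      · simp only [h, and_self, dif_pos]
        exact hc1 _ _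
      · have h' : ¬(lev y = i ∧ lev x = i) := fun h' => h h'.symm
        simp only [h, h', dif_neg, not_false_iff]
    · intro x y z hx hy hz hxy hyz hxz
      have h1 : lev x = i ∧ lev y = i := ⟨hx, hy⟩
      have h2 : lev y = i ∧ lev z = i := ⟨hy, hz⟩
      simp only [h1, h2]
      exact hc2 ⟨x, hx⟩ ⟨y, hy⟩ ⟨z, hz⟩ hxy hyz hxz
  choose c hc1 hc2 using hlevel
  refine ⟨fun x y => if lev x = lev y then c (lev x) x y else 0, ?_, ?_⟩
  · intro x y
    by_cases hxy : lev x = lev y
    · simp only [hxy, if_true]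
      exact hc1 _ x y
    · simp only [hxy, Ne.symm hxy, if_false]
  · rintro x y z ⟨hxy, lxy⟩ ⟨hyz, lyz⟩ ⟨hxz, lxz⟩ ⟨h1, h2⟩
    simp only [lxy, lyz, if_true] at h1 h2
    exact hc2 (lev z) x y z lxz lyz rfl hxy hyz hxz ⟨h1, h2⟩

lemma triColorable_cross {ι : Type*} [LinearOrder ι] (G : SimpleGraph V) (lev : V → ι)
    (h : ∀ x, ∃ φ : V → ℕ, ∀ y z, G.Adj x y → G.Adj x z → G.Adj y z →
      lev y < lev x → lev z < lev x → φ y ≠ φ z) :
    TriColorable (cross G lev) := by
  classical
  choose φ hφ using h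
  let col : V → V → ℕ := fun x y =>
    if lev y < lev x then φ x y else if lev x < lev y then φ y x else 0
  have hlt : ∀ x y, lev y < lev x → col x y = φ x y := fun x y h => if_pos h
  have hgt : ∀ x y, lev x < lev y → col x y = φ y x := fun x y h => by
    simp only [col, if_neg (not_lt.2 h.le), if_pos h]
  have hsymm : ∀ x y, col x y = col y x := by
    intro x y
    rcases lt_trichotomy (lev x) (lev y) with hl | hl | hl
    · rw [hgt x y hl, hlt y x hl]
    · simp only [col, hl, lt_irrefl, if_false]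
    · rw [hlt x y hl, hgt y x hl]
  refine ⟨col, hsymm, ?_⟩
  have top : ∀ x y z, lev y < lev x → lev z < lev x → G.Adj x y → G.Adj x z → G.Adj y z →
      col x y ≠ col x z := by
    intro x y z hy hz hxy hxz hyz
    rw [hlt x y hy, hlt x z hz]
    exact hφ x y z hxy hxz hyz hy hz
  rintro x y z ⟨hxy, lxy⟩ ⟨hyz, lyz⟩ ⟨hxz, lxz⟩ ⟨h1, h2⟩
  have h3 : col x y = col x z := h1.trans h2
  have h1' : col y x = col y z := by rw [hsymm y x]; exact h1
  have h2' : col z y = col z x := by rw [hsymm z y, hsymm z x]; exact h2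
  rcases lt_or_gt_of_ne lxy with a | a
  · rcases lt_or_gt_of_ne lyz with b | b
    · exact top z y x b (a.trans b) hyz.symm hxz.symm hxy.symm h2'
    · exact top y x z a b hxy.symm hyz hxz h1'
  · rcases lt_or_gt_of_ne lxz with b | b
    · exact top z y x (a.trans b) b hyz.symm hxz.symm hxy.symm h2'
    · exact top x y z a b hxy hxz hyz h3

end glue

lemma gam_comap {V : Type u} {p : V → Prop} (G : SimpleGraph V) {μ : Cardinal.{u}} (Q : Set V)
    (x : {x // p x})
    (h : x ∈ Gam (G.comap (Subtype.val : {x // p x} → V)) μ (Subtype.val ⁻¹' Q)) :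
    x.1 ∈ Gam G μ Q := by
  classical
  obtain ⟨W, hW1, hW2, hW3⟩ := h
  refine ⟨Subtype.val '' W, ?_, ?_, ?_⟩
  · rintro _ ⟨y, hy, rfl⟩
    exact hW1 y hy
  · rintro ⟨c, hc⟩
    exact hW2 ⟨fun y => c y.1, fun y hy z hz h => hc y.1 ⟨y, hy, rfl⟩ z.1 ⟨z, hz, rfl⟩ h⟩
  · intro F hF
    refine (hW3 (F.subtype p) ?_).trans_le ?_
    · intro y hy
      rw [Finset.mem_coe, Finset.mem_subtype] at hy
      obtain ⟨y', hy', he⟩ := hF hy
      exact (Subtype.val_injective he) ▸ hy'
    · refine mk_le_of_injective (f := fun z => ⟨z.1.1, z.2.1, ?_⟩) ?_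
      · intro y hy
        obtain ⟨y', -, he⟩ := hF hy
        exact z.2.2 ⟨y, he ▸ y'.2⟩ (Finset.mem_subtype.2 hy)
      · intro z z' hzz
        apply Subtype.ext
        apply Subtype.ext
        exact (Subtype.mk.injEq _ _ _ _).mp hzz

/-- The colouring along a rank. -/
theorem triColorable_of_rank {μ : Cardinal.{u}} (hμ : ℵ₀ ≤ μ) :
    ∀ (V : Type u) (G : SimpleGraph V),
    (∀ (A : Type u) (f : A → V), Function.Injective f → #A ≤ μ → TriColorable (G.comap f)) →
    ∀ (rk : V → Ordinal.{u}),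
    (∀ x, x ∉ Gam G μ {z | rk x ≤ rk z}) → TriColorable G := by
  suffices H : ∀ (κ : Cardinal.{u}) (V : Type u), #V = κ → ∀ (G : SimpleGraph V),
      (∀ (A : Type u) (f : A → V), Function.Injective f → #A ≤ μ → TriColorable (G.comap f)) →
      ∀ (rk : V → Ordinal.{u}), (∀ x, x ∉ Gam G μ {z | rk x ≤ rk z}) → TriColorable G from
    fun V => H #V V rfl
  intro κ
  induction κ using WellFoundedLT.induction with
  | ind κ ih =>
  intro V hV G hsmall rk hG
  classical
  rcases le_or_gt #V μ with hc | hc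
  · exact hsmall V id Function.injective_id hc
  -- the closing operation
  let op : Finset V → Set V := fun F => if F = ∅ then ∅ else
    {y | (∀ a ∈ F, G.Adj y a) ∧ #{z | rk y ≤ rk z ∧ ∀ a ∈ F, G.Adj z a} ≤ μ}
  have hopdef : ∀ F : Finset V, F ≠ ∅ → op F =
      {y | (∀ a ∈ F, G.Adj y a) ∧ #{z | rk y ≤ rk z ∧ ∀ a ∈ F, G.Adj z a} ≤ μ} :=
    fun F hF => if_neg hF
  have hempty : op ∅ = ∅ := if_pos rfl
  have hop : ∀ F, #(op F) ≤ μ := by
    intro F
    rcases (op F).eq_empty_or_nonempty with he | hne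
    · rw [he, mk_eq_zero]
      exact zero_le
    · have hF : F ≠ ∅ := by
        rintro rfl
        rw [hempty] at hne
        exact not_nonempty_empty hne
      have hne' : (rk '' op F).Nonempty := hne.image rk
      obtain ⟨y, hy, hy'⟩ := csInf_mem hne'
      have hmin : ∀ z ∈ op F, rk y ≤ rk z := fun z hz => by
        rw [hy']
        exact csInf_le' ⟨z, hz, rfl⟩
      have hy2 := hy
      rw [hopdef F hF] at hy2
      refine (mk_le_mk_of_subset ?_).trans hy2.2
      intro z hz
      refine ⟨hmin z hz, ?_⟩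
      rw [hopdef F hF] at hz
      exact hz.1
  obtain ⟨ι, _, lev, hlev, hM⟩ := Pool.Agent.H60EH.exists_levels_mu hμ hop hempty hc
  refine triColorable_mono (le_inner_sup_cross G lev)
    (triColorable_sup (triColorable_inner G lev ?_) (triColorable_cross G lev ?_))
  · intro i
    have hlt : #{x // lev x = i} < κ := hV ▸ hlev i
    refine ih _ hlt {x // lev x = i} rfl _
      (fun A f hf hA => hsmall A (fun a => (f a).1) (Subtype.val_injective.comp hf) hA)
      (fun x => rk x.1) ?_
    intro x hx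
    exact hG x.1 (gam_comap G {z | rk x.1 ≤ rk z} x hx)
  · intro x
    obtain ⟨M, hM1, hM2, hM3⟩ := hM x
    by_contra hcon
    refine hG x ⟨{y | G.Adj x y ∧ lev y < lev x}, fun y hy => hy.1, ?_, ?_⟩
    · rintro ⟨c, hcc⟩
      exact hcon ⟨c, fun y z hxy hxz hyz hy hz => hcc y ⟨hxy, hy⟩ z ⟨hxz, hz⟩ hyz⟩
    · have key : ∀ F : Finset V, F ≠ ∅ → ↑F ⊆ {y | G.Adj x y ∧ lev y < lev x} →
          μ < #{z | z ∈ {z | rk x ≤ rk z} ∧ ∀ y ∈ F, G.Adj z y} := by
        intro F hF hFS
        by_contra hcount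
        refine hM2 (hM1 F (fun y hy => hM3 y (hFS hy).2) ?_)
        rw [hopdef F hF]
        exact ⟨fun a ha => (hFS ha).1, not_lt.1 hcount⟩
      intro F hFS
      rcases eq_or_ne F ∅ with rfl | hF
      · -- some lower neighbour exists
        have hne : ∃ y, G.Adj x y ∧ lev y < lev x := by
          by_contra hno
          push Not at hno
          exact hcon ⟨fun _ => 0, fun y z hxy _ _ hy _ => absurd hy (not_lt.2 (hno y hxy))⟩
        obtain ⟨y, hy⟩ := hne
        refine (key {y} (Finset.singleton_ne_empty y) ?_).trans_le (mk_le_mk_of_subset ?_)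
        · intro z hz
          rw [Finset.mem_coe, Finset.mem_singleton] at hz
          rw [hz]
          exact hy
        · rintro z ⟨hz1, -⟩
          exact ⟨hz1, by simp⟩
      · exact key F hF hFS

/-- **Core theorem.** Let `G` be a graph which is not a countable union of triangle-free graphs,
and `μ` an infinite cardinal such that every set of at most `μ` vertices spans a countable union of
triangle-free graphs. Then there is a set `Q` of vertices, spanning a graph which is not a countable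
union of triangle-free graphs either, such that every `x ∈ Q` has a set `W` of neighbours spanning a
graph of uncountable chromatic number, all of whose finite subsets have more than `μ` common
neighbours in `Q`. -/
theorem core {V : Type u} (G : SimpleGraph V) (hG : ¬TriColorable G) {μ : Cardinal.{u}}
    (hμ : ℵ₀ ≤ μ)
    (hsmall : ∀ (A : Type u) (f : A → V), Function.Injective f → #A ≤ μ →
      TriColorable (G.comap f)) :
    ∃ Q : Set V, ¬TriColorable (G.comap (Subtype.val : {x // x ∈ Q} → V)) ∧ Q ⊆ Gam G μ Q := by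
  classical
  obtain ⟨Q, rk, hQ, hrk⟩ := exists_rank (Gam G μ)
  refine ⟨Q, fun hT => hG ?_, hQ⟩
  have hc : TriColorable (G.comap (Subtype.val : {x // x ∉ Q} → V)) := by
    refine triColorable_of_rank hμ _ _
      (fun A f hf hA => hsmall A (fun a => (f a).1) (Subtype.val_injective.comp hf) hA)
      (fun x => rk x.1) ?_
    intro x hx
    exact hrk x.1 x.2 (gam_comap G {z | rk x.1 ≤ rk z} x hx)
  have htr : ∀ p q : V → Prop, p = q → TriColorable (G.comap (Subtype.val : {x // p x} → V)) →
      TriColorable (G.comap (Subtype.val : {x // q x} → V)) := by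
    rintro p _ rfl h
    exact h
  refine triColorable_mono (le_inner_sup_cross G (fun x => x ∈ Q))
    (triColorable_sup (triColorable_inner G _ ?_) ?_)
  · intro i
    by_cases hi : i
    · exact htr _ _ (by funext x; simp [hi]) hT
    · exact htr _ _ (by funext x; simp [hi]) hc
  · refine ⟨fun _ _ => 0, fun _ _ => rfl, ?_⟩
    rintro x y z ⟨-, a⟩ ⟨-, b⟩ ⟨-, c⟩
    exfalso
    by_cases hx : x ∈ Q <;> by_cases hy : y ∈ Q <;> by_cases hz : z ∈ Q <;>
      simp [hx, hy, hz] at a b c

/-- at most continuum many vertices -/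
lemma triColorable_of_le_continuum {V : Type u} (G : SimpleGraph V)
    (hV : #V ≤ Cardinal.continuum.{u}) : TriColorable G := by
  obtain ⟨c, hc1, hc2⟩ := Pool.Agent.H60EH.continuum_coloring hV
  refine ⟨c, hc1, ?_⟩
  rintro x y z hxy hyz hxz ⟨h1, h2⟩
  exact hc2 x y z (G.ne_of_adj hxy) (G.ne_of_adj hyz) (G.ne_of_adj hxz) ⟨h1, h1.trans h2⟩

end Pool.Agent.H33Core
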