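import Pool.Agent.H33Core.Pairs

/-!
# The coherent core with one set of neighbours per vertex
-/

namespace Pool.Agent.H33Core

open Set Cardinal Pool.Agent.H52EH

universe u

/-- `G` restricted to `W` has a proper colouring with natural numbers -/
def CC {V : Type u} (G : SimpleGraph V) (W : Set V) : Prop :=
  ∃ c : V → ℕ, ∀ y ∈ W, ∀ z ∈ W, G.Adj y z → c y ≠ c z

/-- a coherent system: a set `Q` and for every `x ∈ Q` a set `W x` of neighbours -/
def Coh {V : Type u} (G : SimpleGraph V) (μ : Cardinal.{u}) (W : V → Set V) (Q : Set V) : Prop :=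
  ∀ x ∈ Q, (∀ y ∈ W x, G.Adj x y) ∧ ¬CC G (W x) ∧
    ∀ F : Finset V, ↑F ⊆ W x → μ < #{z | z ∈ Q ∧ ↑F ⊆ W z}

lemma exists_op {V : Type u} (G : SimpleGraph V) {μ : Cardinal.{u}}
    (hcoh : ∀ W Q, Coh G μ W Q → Q = ∅) (W : V → Set V) (hW : ∀ x, ∀ y ∈ W x, G.Adj x y) :
    ∃ op : Finset V → Set V, (∀ F, #(op F) ≤ μ) ∧
      ∀ x, ¬CC G (W x) → ∃ F : Finset V, F.Nonempty ∧ ↑F ⊆ W x ∧ x ∈ op F := by
  classical
  let Γ : Set V → Set V := fun Q =>
    {x | ¬CC G (W x) ∧ ∀ F : Finset V, ↑F ⊆ W x → μ < #{z | z ∈ Q ∧ ↑F ⊆ W z}}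
  obtain ⟨Q, rk, hQ, hrk⟩ := exists_rank Γ
  have hQe : Q = ∅ := hcoh W Q fun x hx => ⟨hW x, (hQ hx).1, (hQ hx).2⟩
  subst hQe
  let op : Finset V → Set V := fun F =>
    {y | ↑F ⊆ W y ∧ #{z | rk y ≤ rk z ∧ ↑F ⊆ W z} ≤ μ}
  refine ⟨op, ?_, ?_⟩
  · intro F
    rcases (op F).eq_empty_or_nonempty with he | hne
    · rw [he, mk_eq_zero]
      exact zero_le
    · obtain ⟨y, hy, hy'⟩ := csInf_mem (hne.image rk)
      have hmin : ∀ z ∈ op F, rk y ≤ rk z := fun z hz => by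
        rw [hy']
        exact csInf_le' ⟨z, hz, rfl⟩
      refine (mk_le_mk_of_subset ?_).trans hy.2
      intro z hz
      exact ⟨hmin z hz, hz.1⟩
  · intro x hx
    have h1 := hrk x (notMem_empty x)
    have h2 : ∃ F : Finset V, ↑F ⊆ W x ∧ #{z | rk x ≤ rk z ∧ ↑F ⊆ W z} ≤ μ := by
      by_contra hcon
      push Not at hcon
      exact h1 ⟨hx, hcon⟩
    obtain ⟨F, hF, hFμ⟩ := h2
    rcases F.eq_empty_or_nonempty with rfl | hne
    · have hne : ∃ y, y ∈ W x := by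
        by_contra hno
        push Not at hno
        exact hx ⟨fun _ => 0, fun y hy => absurd hy (hno y)⟩
      obtain ⟨y, hy⟩ := hne
      have hsub : ((({y} : Finset V) : Set V)) ⊆ W x := by
        rw [Finset.coe_singleton, singleton_subset_iff]
        exact hy
      refine ⟨{y}, Finset.singleton_nonempty y, hsub, hsub, ?_⟩
      refine (mk_le_mk_of_subset ?_).trans hFμ
      rintro z ⟨hz, -⟩
      exact ⟨hz, by simp⟩
    · exact ⟨F, hne, hF, hF, hFμ⟩

/-- One round of closing the levels. -/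
lemma exists_next {V : Type u} {μ : Cardinal.{u}} (hμ : ℵ₀ ≤ μ) {ι : Type u} [LinearOrder ι]
    [WellFoundedLT ι] (κ : ι → Cardinal.{u}) (lev : V → ι)
    (hlev : ∀ i, #{x | lev x ≤ i} ≤ max (κ i) μ) (op : Finset V → Set V)
    (hop : ∀ F, #(op F) ≤ μ) :
    ∃ lev' : V → ι, (∀ x, lev' x ≤ lev x) ∧ (∀ i, #{x | lev' x ≤ i} ≤ max (κ i) μ) ∧
      ∀ (F : Finset V) (i : ι), (∀ y ∈ F, lev y ≤ i) → ∀ x ∈ op F, lev' x ≤ i := by
  classical
  have hex : ∀ x, {i | x ∈ cl op {y | lev y ≤ i}}.Nonempty := fun x =>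
    ⟨lev x, subset_cl _ (show lev x ≤ lev x from le_rfl)⟩
  let lev' : V → ι := fun x =>
    WellFounded.min (wellFounded_lt (α := ι)) {i | x ∈ cl op {y | lev y ≤ i}} (hex x)
  have h1 : ∀ x, x ∈ cl op {y | lev y ≤ lev' x} := fun x =>
    WellFounded.min_mem (wellFounded_lt (α := ι)) {i | x ∈ cl op {y | lev y ≤ i}} (hex x)
  have h2 : ∀ x i, x ∈ cl op {y | lev y ≤ i} → lev' x ≤ i := fun x i hi =>
    not_lt.1 (WellFounded.not_lt_min (wellFounded_lt (α := ι)) {i | x ∈ cl op {y | lev y ≤ i}} hi)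
  refine ⟨lev', ?_, ?_, ?_⟩
  · intro x
    exact h2 x (lev x) (subset_cl _ (show lev x ≤ lev x from le_rfl))
  · intro i
    have h3 : {x | lev' x ≤ i} ⊆ cl op {y | lev y ≤ i} := by
      intro x hx
      exact cl_mono (fun y hy => le_trans hy hx) (h1 x)
    refine (mk_le_mk_of_subset h3).trans ((Pool.Agent.H60EH.mk_cl_le hμ hop _).trans ?_)
    exact max_le (hlev i) (le_max_right _ _)
  · intro F i hF x hx
    exact h2 x i (cl_closed {y | lev y ≤ i} (fun y hy => subset_cl _ (hF y hy)) hx)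

/-- The limit levels. -/
lemma exists_limit_levels {V : Type u} (G : SimpleGraph V) {μ : Cardinal.{u}} (hμ : ℵ₀ ≤ μ)
    (hV : μ < #V) (hcoh : ∀ W Q, Coh G μ W Q → Q = ∅) :
    ∃ (ι : Type u) (_ : LinearOrder ι) (L : V → ι), (∀ i, #{x | L x = i} < #V) ∧
      ∀ x, CC G {y | G.Adj x y ∧ L y < L x} := by
  classical
  let ι : Type u := (#V).ord.ToType
  have hι : #ι = #V := by simp [ι]
  obtain ⟨e⟩ : Nonempty (ι ≃ V) := Cardinal.eq.1 hι
  let κ : ι → Cardinal.{u} := fun i => #(Iic i)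
  have hκ : ∀ i, max (κ i) μ < #V := by
    intro i
    refine max_lt ?_ hV
    have h2 : #(Iio i) < #V := by simpa [ι] using mk_Iio_lt i
    have h3 : #(Iic i) ≤ #(Iio i) + 1 := by
      rw [← Iio_insert]
      exact mk_insert_le
    refine h3.trans_lt (add_lt_of_lt (hμ.trans hV.le) h2 ?_)
    exact (one_lt_aleph0).trans (hμ.trans_lt hV)
  let T : Type u := {lev : V → ι // ∀ i, #{x | lev x ≤ i} ≤ max (κ i) μ}
  let init : T := ⟨e.symm, by
    intro i
    refine le_trans ?_ (le_max_left _ _)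
    refine mk_le_of_injective (f := fun x => ⟨e.symm x.1, x.2⟩) ?_
    intro x y hxy
    apply Subtype.ext
    exact e.symm.injective ((Subtype.mk.injEq _ _ _ _).mp hxy)⟩
  have hstep : ∀ s : T, ∃ s' : T, (∀ x, s'.1 x ≤ s.1 x) ∧
      ∀ x, ¬CC G {y | G.Adj x y ∧ s.1 y < s.1 x} → s'.1 x < s.1 x := by
    rintro ⟨lev, hlev⟩
    obtain ⟨op, hop, hop2⟩ := exists_op G hcoh (fun x => {y | G.Adj x y ∧ lev y < lev x})
      (fun x y hy => hy.1)
    obtain ⟨lev', h1, h2, h3⟩ := exists_next hμ κ lev hlev op hop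
    refine ⟨⟨lev', h2⟩, h1, ?_⟩
    intro x hx
    obtain ⟨F, hne, hF, hxF⟩ := hop2 x hx
    have h4 : F.sup' hne lev < lev x := by
      rw [Finset.sup'_lt_iff]
      exact fun y hy => (hF hy).2
    exact (h3 F (F.sup' hne lev) (fun y hy => Finset.le_sup' lev hy) x hxF).trans_lt h4
  let f : ℕ → T := fun n => Nat.rec init (fun _ s => (hstep s).choose) n
  have hf1 : ∀ n x, (f (n + 1)).1 x ≤ (f n).1 x := fun n x => (hstep (f n)).choose_spec.1 x
  have hf2 : ∀ n x, ¬CC G {y | G.Adj x y ∧ (f n).1 y < (f n).1 x} →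
      (f (n + 1)).1 x < (f n).1 x := fun n x => (hstep (f n)).choose_spec.2 x
  have hmono : ∀ x n m, n ≤ m → (f m).1 x ≤ (f n).1 x := by
    intro x n m h
    induction h with
    | refl => exact le_rfl
    | step _ ih => exact (hf1 _ x).trans ih
  have hex : ∀ x, ∃ n, ∀ m, n ≤ m → (f m).1 x = (f n).1 x := by
    intro x
    have hne : (range fun n => (f n).1 x).Nonempty := ⟨_, 0, rfl⟩
    obtain ⟨n, hn⟩ := WellFounded.min_mem (wellFounded_lt (α := ι)) _ hne
    refine ⟨n, fun m hm => le_antisymm (hmono x n m hm) ?_⟩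
    have h1 := WellFounded.not_lt_min (wellFounded_lt (α := ι)) (range fun n => (f n).1 x)
      (show (f m).1 x ∈ _ from ⟨m, rfl⟩)
    rw [← hn] at h1
    exact not_lt.1 h1
  choose N hN using hex
  let L : V → ι := fun x => (f (N x)).1 x
  have hL : ∀ x m, N x ≤ m → (f m).1 x = L x := hN
  refine ⟨ι, inferInstance, L, ?_, ?_⟩
  · intro i
    have h1 : {x | L x = i} ⊆ ⋃ n : ℕ, {x | (f n).1 x ≤ i} := by
      intro x hx
      exact mem_iUnion.2 ⟨N x, le_of_eq hx⟩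
    have h2 := mk_iUnion_le_lift (fun n : ℕ => {x | (f n).1 x ≤ i})
    rw [lift_uzero] at h2
    have hmax0 : ℵ₀ ≤ max (κ i) μ := hμ.trans (le_max_right _ _)
    have h3 : (⨆ n : ℕ, lift.{0} #{x | (f n).1 x ≤ i}) ≤ max (κ i) μ := ciSup_le' fun n => by
      rw [lift_uzero]
      exact (f n).2 i
    have h4 : lift.{u, 0} #ℕ = ℵ₀ := by simp
    rw [h4] at h2
    refine (mk_le_mk_of_subset h1).trans_lt ((h2.trans ?_).trans_lt (hκ i))
    refine (mul_le_mul' le_rfl h3).trans ?_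
    rw [aleph0_mul_eq hmax0]
  · intro x
    have hcc : ∀ n, N x ≤ n → CC G {y | G.Adj x y ∧ (f n).1 y < (f n).1 x} := by
      intro n hn
      by_contra hcon
      have h1 := hf2 n x hcon
      rw [hL x (n + 1) (hn.trans (Nat.le_succ n)), hL x n hn] at h1
      exact lt_irrefl _ h1
    have hcc' : ∀ n, ∃ c : V → ℕ, N x ≤ n → ∀ y z, G.Adj x y → G.Adj x z →
        (f n).1 y < (f n).1 x → (f n).1 z < (f n).1 x → G.Adj y z → c y ≠ c z := by
      intro n
      by_cases hn : N x ≤ n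
      · obtain ⟨c, hc⟩ := hcc n hn
        exact ⟨c, fun _ y z hxy hxz hy hz => hc y ⟨hxy, hy⟩ z ⟨hxz, hz⟩⟩
      · exact ⟨fun _ => 0, fun h => absurd h hn⟩
    choose c hc using hcc'
    refine ⟨fun y => Nat.pair (max (N x) (N y)) (c (max (N x) (N y)) y), ?_⟩
    rintro y ⟨hxy, hy⟩ z ⟨hxz, hz⟩ hyz he
    rw [Nat.pair_eq_pair] at he
    obtain ⟨he1, he2⟩ := he
    rw [← he1] at he2
    refine hc (max (N x) (N y)) (le_max_left _ _) y z hxy hxz ?_ ?_ hyz he2
    · rw [hL y _ (le_max_right _ _), hL x _ (le_max_left _ _)]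
      exact hy
    · rw [hL x _ (le_max_left _ _), he1, hL z _ (le_max_right _ _)]
      exact hz

/-- coherent systems as functional sets of pairs -/
def FP {V : Type u} (G : SimpleGraph V) (μ : Cardinal.{u}) (P : Set (V × Set V)) : Prop :=
  P ⊆ Step G μ P ∧ ∀ x W W', (x, W) ∈ P → (x, W') ∈ P → W = W'

lemma step_mono {V : Type u} (G : SimpleGraph V) {μ : Cardinal.{u}} {P P' : Set (V × Set V)}
    (h : P ⊆ P') : Step G μ P ⊆ Step G μ P' := by
  rintro p ⟨h1, h2, h3⟩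
  refine ⟨h1, h2, fun F hF => (h3 F hF).trans_le (mk_le_mk_of_subset ?_)⟩
  rintro z ⟨W', hFW, hz⟩
  exact ⟨W', hFW, h hz⟩

lemma coh_empty {V : Type u} (G : SimpleGraph V) {μ : Cardinal.{u}}
    (hFP : ∀ P, FP G μ P → P = ∅) : ∀ W Q, Coh G μ W Q → Q = ∅ := by
  intro W Q hQ
  have h1 : FP G μ {q | q.1 ∈ Q ∧ q.2 = W q.1} := by
    refine ⟨?_, ?_⟩
    · rintro ⟨x, W₁⟩ ⟨hx, hW₁⟩
      obtain rfl : W₁ = W x := hW₁
      obtain ⟨a, b, c⟩ := hQ x hx
      refine ⟨a, b, fun F hF => (c F hF).trans_le (mk_le_mk_of_subset ?_)⟩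
      rintro z ⟨hz, hFz⟩
      exact ⟨W z, hFz, hz, rfl⟩
    · rintro x W₁ W₂ ⟨-, h⟩ ⟨-, h'⟩
      exact h.trans h'.symm
  have h2 := hFP _ h1
  by_contra hne
  obtain ⟨x, hx⟩ := nonempty_iff_ne_empty.2 hne
  have h3 : (x, W x) ∈ (∅ : Set (V × Set V)) := h2 ▸ ⟨hx, rfl⟩
  exact h3

/-- the image of a system on a subset -/
def push {V : Type u} {p : V → Prop} (P : Set ({x // p x} × Set {x // p x})) : Set (V × Set V) :=
  {q | ∃ r ∈ P, q = (r.1.1, Subtype.val '' r.2)}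

lemma push_step {V : Type u} (G : SimpleGraph V) {μ : Cardinal.{u}} {p : V → Prop}
    (P : Set ({x // p x} × Set {x // p x}))
    (hP : P ⊆ Step (G.comap (Subtype.val : {x // p x} → V)) μ P) :
    push P ⊆ Step G μ (push P) := by
  rintro _ ⟨⟨x, W⟩, hr, rfl⟩
  exact step_comap G (push P) P (fun z W' h => ⟨(z, W'), h, rfl⟩) x W (hP hr)

lemma push_fun {V : Type u} {p : V → Prop} (P : Set ({x // p x} × Set {x // p x}))
    (hP : ∀ x W W', (x, W) ∈ P → (x, W') ∈ P → W = W') :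
    ∀ x W W', (x, W) ∈ push P → (x, W') ∈ push P → W = W' := by
  rintro x W₁ W₂ ⟨⟨y, W⟩, hy, he⟩ ⟨⟨y', W'⟩, hy', he'⟩
  rw [Prod.mk.injEq] at he he'
  have h1 : y = y' := Subtype.ext (he.1.symm.trans he'.1)
  subst h1
  rw [he.2, he'.2, hP y W W' hy hy']

/-- If there is no coherent system then the graph is a countable union of triangle-free graphs. -/
theorem triColorable_of_no_coh {μ : Cardinal.{u}} (hμ : ℵ₀ ≤ μ) :
    ∀ (V : Type u) (G : SimpleGraph V),
    (∀ (A : Type u) (f : A → V), Function.Injective f → #A ≤ μ → TriColorable (G.comap f)) →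
    (∀ P, FP G μ P → P = ∅) → TriColorable G := by
  suffices H : ∀ (κ : Cardinal.{u}) (V : Type u), #V = κ → ∀ (G : SimpleGraph V),
      (∀ (A : Type u) (f : A → V), Function.Injective f → #A ≤ μ → TriColorable (G.comap f)) →
      (∀ P, FP G μ P → P = ∅) → TriColorable G from
    fun V => H #V V rfl
  intro κ
  induction κ using WellFoundedLT.induction with
  | ind κ ih =>
  intro V hV G hsmall hcoh
  classical
  rcases le_or_gt #V μ with hc | hc
  · exact hsmall V id Function.injective_id hc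
  obtain ⟨ι, _, lev, hlev, hM⟩ := exists_limit_levels G hμ hc (coh_empty G hcoh)
  refine triColorable_mono (le_inner_sup_cross G lev)
    (triColorable_sup (triColorable_inner G lev ?_) (triColorable_cross G lev ?_))
  · intro i
    have hlt : #{x // lev x = i} < κ := hV ▸ hlev i
    refine ih _ hlt {x // lev x = i} rfl _
      (fun A f hf hA => hsmall A (fun a => (f a).1) (Subtype.val_injective.comp hf) hA) ?_
    intro P hP
    have h1 := hcoh (push P) ⟨push_step G P hP.1, push_fun P hP.2⟩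
    by_contra hne
    obtain ⟨r, hr⟩ := nonempty_iff_ne_empty.2 hne
    have h3 : (r.1.1, Subtype.val '' r.2) ∈ (∅ : Set (V × Set V)) := h1 ▸ ⟨r, hr, rfl⟩
    exact h3
  · intro x
    obtain ⟨c, hcc⟩ := hM x
    exact ⟨c, fun y z hxy hxz hyz hy hz => hcc y ⟨hxy, hy⟩ z ⟨hxz, hz⟩ hyz⟩

/-- **Functional coherent core.** -/
theorem core_fun {V : Type u} (G : SimpleGraph V) {μ : Cardinal.{u}} (hμ : ℵ₀ ≤ μ)
    (hsmall : ∀ (A : Type u) (f : A → V), Function.Injective f → #A ≤ μ →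
      TriColorable (G.comap f)) :
    ∃ P : Set (V × Set V), FP G μ P ∧
      TriColorable (G.comap (Subtype.val : {x // ¬∃ W, (x, W) ∈ P} → V)) := by
  classical
  obtain ⟨P, hPmax⟩ := zorn_subset {P | FP G μ P} (by
    intro c hc hchain
    refine ⟨⋃₀ c, ⟨?_, ?_⟩, fun s hs => subset_sUnion_of_mem hs⟩
    · rintro q ⟨s, hs, hq⟩
      exact step_mono G (subset_sUnion_of_mem hs) ((hc hs).1 hq)
    · rintro x W W' ⟨s, hs, hW⟩ ⟨s', hs', hW'⟩
      rcases hchain.total hs hs' with h | h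
      · exact (hc hs').2 x W W' (h hW) hW'
      · exact (hc hs).2 x W W' hW (h hW'))
  have hP : FP G μ P := hPmax.prop
  refine ⟨P, hP, ?_⟩
  refine triColorable_of_no_coh hμ _ _
    (fun A f hf hA => hsmall A (fun a => (f a).1) (Subtype.val_injective.comp hf) hA) ?_
  intro R hR
  have h1 : FP G μ (P ∪ push R) := by
    refine ⟨union_subset (hP.1.trans (step_mono G subset_union_left))
      ((push_step G R hR.1).trans (step_mono G subset_union_right)), ?_⟩
    have hmix : ∀ x W W', (x, W) ∈ P → (x, W') ∈ push R → False := by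
      rintro x W W' hW ⟨⟨y, W''⟩, -, he⟩
      rw [Prod.mk.injEq] at he
      exact y.2 ⟨W, he.1 ▸ hW⟩
    rintro x W W' (hW | hW) (hW' | hW')
    · exact hP.2 x W W' hW hW'
    · exact (hmix x W W' hW hW').elim
    · exact (hmix x W' W hW' hW).elim
    · exact push_fun R hR.2 x W W' hW hW'
  have h2 : P ∪ push R ⊆ P := hPmax.le_of_ge h1 subset_union_left
  by_contra hne
  obtain ⟨⟨x, W⟩, hr⟩ := nonempty_iff_ne_empty.2 hne
  exact x.2 ⟨_, h2 (Or.inr ⟨(x, W), hr, rfl⟩)⟩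

end Pool.Agent.H33Core
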