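import Pool.Agent.H33Core.CountCl
import Pool.Agent.H33Core.Fun

/-!
# The coherent core for countable sets
-/

namespace Pool.Agent.H33Core

open Set Cardinal Pool.Agent.H52EH

universe u

/-- The pairs `(x, W)`, `W` a set of neighbours of `x` which spans a graph of uncountable chromatic
number, such that for every countable `F ⊆ W` there are more than `μ` vertices `z` with a pair
`(z, W')` in `P`, `F ⊆ W'`. -/
def CStep {V : Type u} (G : SimpleGraph V) (μ : Cardinal.{u}) (P : Set (V × Set V)) :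
    Set (V × Set V) :=
  {p | (∀ y ∈ p.2, G.Adj p.1 y) ∧ ¬CC G p.2 ∧
    ∀ F : Set V, F.Countable → F ⊆ p.2 → μ < #{z | ∃ W' : Set V, F ⊆ W' ∧ (z, W') ∈ P}}

lemma cstep_comap {V : Type u} {p : V → Prop} (G : SimpleGraph V) {μ : Cardinal.{u}}
    (P : Set (V × Set V)) (P' : Set ({x // p x} × Set {x // p x}))
    (hP : ∀ z W, (z, W) ∈ P' → (z.1, Subtype.val '' W) ∈ P)
    (x : {x // p x}) (W : Set {x // p x})
    (h : (x, W) ∈ CStep (G.comap (Subtype.val : {x // p x} → V)) μ P') :
    (x.1, Subtype.val '' W) ∈ CStep G μ P := by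
  classical
  obtain ⟨hW1, hW2, hW3⟩ := h
  refine ⟨?_, ?_, ?_⟩
  · rintro _ ⟨y, hy, rfl⟩
    exact hW1 y hy
  · rintro ⟨c, hc⟩
    exact hW2 ⟨fun y => c y.1, fun y hy z hz h => hc y.1 ⟨y, hy, rfl⟩ z.1 ⟨z, hz, rfl⟩ h⟩
  · intro F hFc hF
    refine (hW3 (Subtype.val ⁻¹' F) (hFc.preimage Subtype.val_injective) ?_).trans_le ?_
    · intro y hy
      obtain ⟨y', hy', he⟩ := hF hy
      exact (Subtype.val_injective he) ▸ hy'
    · refine mk_le_of_injective (f := fun z => ⟨z.1.1, ?_⟩) ?_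
      · obtain ⟨W', hFW, hz⟩ := z.2
        refine ⟨Subtype.val '' W', ?_, hP _ _ hz⟩
        intro y hy
        obtain ⟨y', -, he⟩ := hF hy
        have hy' : y' ∈ Subtype.val ⁻¹' F := by
          rw [mem_preimage, he]
          exact hy
        exact ⟨y', hFW hy', he⟩
      · intro z z' hzz
        apply Subtype.ext
        apply Subtype.ext
        exact (Subtype.mk.injEq _ _ _ _).mp hzz

/-- countable unions -/
lemma cc_of_cover {V : Type u} (G : SimpleGraph V) (W : Set V) (A : ℕ → Set V)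
    (hA : ∀ n, CC G (A n)) (h : ∀ y ∈ W, ∃ n, y ∈ A n) : CC G W := by
  classical
  choose c hc using hA
  refine ⟨fun y => if h : ∃ n, y ∈ A n then Nat.pair (Nat.find h) (c (Nat.find h) y) else 0, ?_⟩
  intro y hy z hz hyz
  have h1 := h y hy
  have h2 := h z hz
  simp only [h1, h2, dif_pos]
  intro he
  rw [Nat.pair_eq_pair] at he
  obtain ⟨he1, he2⟩ := he
  rw [← he1] at he2
  refine hc (Nat.find h1) y (Nat.find_spec h1) z ?_ hyz he2
  rw [he1]
  exact Nat.find_spec h2

/-- The colouring along a rank of pairs, countable version. -/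
theorem triColorable_of_cRank {μ : Cardinal.{u}} (hμ : ℵ₀ ≤ μ) :
    ∀ (V : Type u) (G : SimpleGraph V),
    (∀ c : Cardinal.{u}, μ ≤ c → c < #V → c ^ (ℵ₀ : Cardinal.{u}) = c) →
    (∀ (A : Type u) (f : A → V), Function.Injective f → #A ≤ μ → TriColorable (G.comap f)) →
    ∀ (rk : V × Set V → Ordinal.{u}),
    (∀ p, p ∉ CStep G μ {q | rk p ≤ rk q}) → TriColorable G := by
  suffices H : ∀ (κ : Cardinal.{u}) (V : Type u), #V = κ → ∀ (G : SimpleGraph V),
      (∀ c : Cardinal.{u}, μ ≤ c → c < #V → c ^ (ℵ₀ : Cardinal.{u}) = c) →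
      (∀ (A : Type u) (f : A → V), Function.Injective f → #A ≤ μ → TriColorable (G.comap f)) →
      ∀ (rk : V × Set V → Ordinal.{u}), (∀ p, p ∉ CStep G μ {q | rk p ≤ rk q}) →
        TriColorable G from
    fun V => H #V V rfl
  intro κ
  induction κ using WellFoundedLT.induction with
  | ind κ ih =>
  intro V hV G hpow hsmall rk hG
  classical
  rcases le_or_gt #V μ with hc | hc
  · exact hsmall V id Function.injective_id hc
  have hVne : Nonempty V := by
    rw [← mk_ne_zero_iff]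
    exact (aleph0_pos.trans_le (hμ.trans hc.le)).ne'
  -- the closing operation
  let Y : Set V → Ordinal.{u} → Set V := fun F a => {z | ∃ W' : Set V, F ⊆ W' ∧ a ≤ rk (z, W')}
  let op : Set V → Set V := fun F => if F = ∅ then ∅ else {y | ∃ a, #(Y F a) ≤ μ ∧ y ∈ Y F a}
  have hopdef : ∀ F : Set V, F.Nonempty → op F = {y | ∃ a, #(Y F a) ≤ μ ∧ y ∈ Y F a} :=
    fun F hF => if_neg hF.ne_empty
  have hempty : op ∅ = ∅ := if_pos rfl
  have hop : ∀ F, #(op F) ≤ μ := by
    intro F
    rcases (op F).eq_empty_or_nonempty with he | hne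
    · rw [he, mk_eq_zero]
      exact zero_le
    · have hF : F.Nonempty := by
        rw [nonempty_iff_ne_empty]
        rintro rfl
        rw [hempty] at hne
        exact not_nonempty_empty hne
      have hne' : {a | #(Y F a) ≤ μ}.Nonempty := by
        obtain ⟨y, hy⟩ := hne
        rw [hopdef F hF] at hy
        obtain ⟨a, ha, -⟩ := hy
        exact ⟨a, ha⟩
      have h1 : #(Y F (sInf {a | #(Y F a) ≤ μ})) ≤ μ := csInf_mem hne'
      refine (mk_le_mk_of_subset ?_).trans h1
      intro y hy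
      rw [hopdef F hF] at hy
      obtain ⟨a, ha, W', hFW, hr⟩ := hy
      exact ⟨W', hFW, (csInf_le' (show a ∈ {a | #(Y F a) ≤ μ} from ha)).trans hr⟩
  -- what the rank gives
  have hkey : ∀ x (W : Set V), (∀ y ∈ W, G.Adj x y) → ¬CC G W →
      ∃ F : Set V, F.Countable ∧ F.Nonempty ∧ F ⊆ W ∧ x ∈ op F := by
    intro x W hW hcc
    have h1 : ∃ F : Set V, F.Countable ∧ F ⊆ W ∧
        #{z | ∃ W' : Set V, F ⊆ W' ∧ (z, W') ∈ {q | rk (x, W) ≤ rk q}} ≤ μ := by
      by_contra hcon
      push Not at hcon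
      exact hG (x, W) ⟨hW, hcc, hcon⟩
    obtain ⟨F, hFc, hF, hFμ⟩ := h1
    have hY : ∀ F' : Set V, F ⊆ F' → #(Y F' (rk (x, W))) ≤ μ := by
      intro F' hFF
      refine (mk_le_mk_of_subset ?_).trans hFμ
      rintro z ⟨W', hFW, hz⟩
      exact ⟨W', hFF.trans hFW, hz⟩
    rcases F.eq_empty_or_nonempty with rfl | hne
    · have hne : ∃ w, w ∈ W := by
        by_contra hno
        push Not at hno
        exact hcc ⟨fun _ => 0, fun y hy => absurd hy (hno y)⟩
      obtain ⟨w, hw⟩ := hne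
      refine ⟨{w}, countable_singleton w, singleton_nonempty w, singleton_subset_iff.2 hw, ?_⟩
      rw [hopdef _ (singleton_nonempty w)]
      exact ⟨rk (x, W), hY _ (empty_subset _), W, singleton_subset_iff.2 hw, le_rfl⟩
    · refine ⟨F, hFc, hne, hF, ?_⟩
      rw [hopdef _ hne]
      exact ⟨rk (x, W), hY _ subset_rfl, W, hF, le_rfl⟩
  -- levels
  let ι : Type u := (#V).ord.ToType
  have hι : #ι = #V := by simp [ι]
  obtain ⟨e⟩ : Nonempty (ι ≃ V) := Cardinal.eq.1 hι
  let A : ι → Set V := fun i => ccl op (e '' Iic i)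
  have hAmono : ∀ i j, i ≤ j → A i ⊆ A j := fun i j h =>
    ccl_mono op (image_mono (Iic_subset_Iic.2 h))
  have hAcl : ∀ i (F : Set V), F.Countable → F ⊆ A i → op F ⊆ A i := fun i F hFc hF =>
    ccl_closed op _ hFc hF
  have hAsize : ∀ i, #(A i) < #V := by
    intro i
    have h2 : #(Iio i) < #V := by simpa [ι] using mk_Iio_lt i
    have h3 : #(Iic i) ≤ #(Iio i) + 1 := by
      rw [← Iio_insert]
      exact mk_insert_le
    have h4 : #(Iic i) < #V := h3.trans_lt (add_lt_of_lt (hμ.trans hc.le) h2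
      ((one_lt_aleph0).trans (hμ.trans_lt hc)))
    have h5 : max #(Iic i) μ < #V := max_lt h4 hc
    refine (mk_ccl_le hμ (le_max_right #(Iic i) μ) (hpow _ (le_max_right _ _) h5) op hop hempty _
      (mk_image_le.trans (le_max_left _ _))).trans_lt h5
  have hex : ∀ x : V, {i | x ∈ A i}.Nonempty := fun x =>
    ⟨e.symm x, subset_ccl op _ ⟨e.symm x, by simp, by simp⟩⟩
  let lev : V → ι := fun x => WellFounded.min (wellFounded_lt (α := ι)) {i | x ∈ A i} (hex x)
  have hlev : ∀ x, x ∈ A (lev x) := fun x =>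
    WellFounded.min_mem (wellFounded_lt (α := ι)) {i | x ∈ A i} (hex x)
  have hlev' : ∀ x i, x ∈ A i → lev x ≤ i := fun x i hi =>
    not_lt.1 (WellFounded.not_lt_min (wellFounded_lt (α := ι)) {i | x ∈ A i} hi)
  refine triColorable_mono (le_inner_sup_cross G lev)
    (triColorable_sup (triColorable_inner G lev ?_) (triColorable_cross G lev ?_))
  · intro i
    have hlt' : #{x // lev x = i} < #V := by
      refine (mk_le_mk_of_subset (s := {x | lev x = i}) (t := A i) ?_).trans_lt (hAsize i)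
      rintro x rfl
      exact hlev x
    have hlt : #{x // lev x = i} < κ := hV ▸ hlt'
    refine ih _ hlt {x // lev x = i} rfl _
      (fun c h1 h2 => hpow c h1 (h2.trans hlt'))
      (fun A f hf hA => hsmall A (fun a => (f a).1) (Subtype.val_injective.comp hf) hA)
      (fun q => rk (q.1.1, Subtype.val '' q.2)) ?_
    rintro ⟨x, W⟩ hx
    exact hG (x.1, Subtype.val '' W)
      (cstep_comap G {q | rk (x.1, Subtype.val '' W) ≤ rk q} _ (fun z W' h => h) x W hx)
  · intro x
    -- bounded parts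
    have hbd : ∀ j, j < lev x → CC G {y | G.Adj x y ∧ lev y ≤ j} := by
      intro j hj
      by_contra hcc
      obtain ⟨F, hFc, -, hF, hxF⟩ := hkey x _ (fun y hy => hy.1) hcc
      have h1 : x ∈ A j := hAcl j F hFc (fun y hy => hAmono _ _ (hF hy).2 (hlev y)) hxF
      exact absurd (hlev' x j h1) (not_le.2 hj)
    have hall : CC G {y | G.Adj x y ∧ lev y < lev x} := by
      by_contra hcc
      obtain ⟨F, hFc, hFne, hF, hxF⟩ := hkey x _ (fun y hy => hy.1) hcc
      by_cases hb : ∃ j, j < lev x ∧ ∀ y ∈ F, lev y ≤ j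
      · obtain ⟨j, hj, hFj⟩ := hb
        have h1 : x ∈ A j := hAcl j F hFc (fun y hy => hAmono _ _ (hFj y hy) (hlev y)) hxF
        exact absurd (hlev' x j h1) (not_le.2 hj)
      · push Not at hb
        obtain ⟨f, hf⟩ := hFc.exists_eq_range hFne
        apply hcc
        refine cc_of_cover G _ (fun n => {y | G.Adj x y ∧ lev y ≤ lev (f n)}) ?_ ?_
        · intro n
          have h1 : f n ∈ F := by
            rw [hf]
            exact ⟨n, rfl⟩
          exact hbd _ (hF h1).2
        · rintro y ⟨hxy, hy⟩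
          obtain ⟨z, hz, hyz⟩ := hb (lev y) hy
          rw [hf] at hz
          obtain ⟨n, rfl⟩ := hz
          exact ⟨n, hxy, hyz.le⟩
    obtain ⟨c, hcc⟩ := hall
    exact ⟨c, fun y z hxy hxz hyz hy hz => hcc y ⟨hxy, hy⟩ z ⟨hxz, hz⟩ hyz⟩

/-- **Coherent core for countable sets.** -/
theorem core_countable {V : Type u} (G : SimpleGraph V) {μ : Cardinal.{u}} (hμ : ℵ₀ ≤ μ)
    (hpow : ∀ c : Cardinal.{u}, μ ≤ c → c < #V → c ^ (ℵ₀ : Cardinal.{u}) = c)
    (hsmall : ∀ (A : Type u) (f : A → V), Function.Injective f → #A ≤ μ →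
      TriColorable (G.comap f)) :
    ∃ P : Set (V × Set V), P ⊆ CStep G μ P ∧
      TriColorable (G.comap (Subtype.val : {x // ¬∃ W, (x, W) ∈ P} → V)) := by
  classical
  obtain ⟨P, rk, hP, hrk⟩ := exists_rank (CStep G μ)
  refine ⟨P, hP, ?_⟩
  refine triColorable_of_cRank hμ _ _ (fun c h1 h2 => hpow c h1 (h2.trans_le ?_))
    (fun A f hf hA => hsmall A (fun a => (f a).1) (Subtype.val_injective.comp hf) hA)
    (fun q => rk (q.1.1, Subtype.val '' q.2)) ?_
  · exact mk_subtype_le _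
  · rintro ⟨x, W⟩ hx
    exact hrk (x.1, Subtype.val '' W) (fun h => x.2 ⟨_, h⟩)
      (cstep_comap G {q | rk (x.1, Subtype.val '' W) ≤ rk q} _ (fun z W' h => h) x W hx)

end Pool.Agent.H33Core
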