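import Pool.Agent.H33Core.Pairs

/-!
# Closing off under countable sets
-/

namespace Pool.Agent.H33Core

open Set Cardinal Pool.Agent.H52EH

universe u

/-- the least set containing `X` and closed under `op` for countable sets -/
def ccl {V : Type u} (op : Set V → Set V) (X : Set V) : Set V :=
  ⋂₀ {Y | X ⊆ Y ∧ ∀ F : Set V, F.Countable → F ⊆ Y → op F ⊆ Y}

lemma subset_ccl {V : Type u} (op : Set V → Set V) (X : Set V) : X ⊆ ccl op X :=
  subset_sInter fun _ hY => hY.1

lemma ccl_closed {V : Type u} (op : Set V → Set V) (X : Set V) {F : Set V} (hF : F.Countable)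
    (h : F ⊆ ccl op X) : op F ⊆ ccl op X :=
  subset_sInter fun _ hY => hY.2 F hF (h.trans (sInter_subset_of_mem hY))

lemma ccl_mono {V : Type u} (op : Set V → Set V) {X Y : Set V} (h : X ⊆ Y) :
    ccl op X ⊆ ccl op Y :=
  subset_sInter fun _ hZ => sInter_subset_of_mem ⟨h.trans hZ.1, hZ.2⟩

/-- arities -/
def ar (X M : Type u) : X ⊕ M → Type := fun
  | .inl _ => PEmpty
  | .inr _ => ℕ

/-- evaluation of a well-founded tree -/
def ev {V : Type u} (X : Set V) (M : Type u) (e : Set V → M → V) : WType (ar X M) → V :=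
  WType.elim V fun s => match s with
    | ⟨.inl x, _⟩ => x.1
    | ⟨.inr m, f⟩ => e (range f) m

lemma mk_ccl_le {V : Type u} [Nonempty V] {μ κ : Cardinal.{u}} (hμ : ℵ₀ ≤ μ) (hμκ : μ ≤ κ)
    (hκ : κ ^ (ℵ₀ : Cardinal.{u}) = κ) (op : Set V → Set V) (hop : ∀ F, #(op F) ≤ μ)
    (hop0 : op ∅ = ∅) (X : Set V) (hX : #X ≤ κ) : #(ccl op X) ≤ κ := by
  classical
  have hM : #(μ.out) = μ := mk_out μ
  have hne : Nonempty μ.out := by
    rw [← mk_ne_zero_iff, hM]
    exact (aleph0_pos.trans_le hμ).ne'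
  have he : ∀ F : Set V, ∃ e : μ.out → V, op F ⊆ range e := by
    intro F
    have h1 : #(op F) ≤ #(μ.out) := by
      rw [hM]
      exact hop F
    obtain ⟨g⟩ := h1
    refine ⟨fun m => if h : ∃ y : op F, g y = m then h.choose.1 else Classical.arbitrary V, ?_⟩
    intro y hy
    have h : ∃ y' : op F, g y' = g ⟨y, hy⟩ := ⟨⟨y, hy⟩, rfl⟩
    refine ⟨g ⟨y, hy⟩, ?_⟩
    simp only [h, dif_pos]
    have h2 := g.injective h.choose_spec
    exact congrArg Subtype.val h2
  choose e he using he
  have h1 : ccl op X ⊆ range (ev X μ.out e) := by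
    refine sInter_subset_of_mem ⟨?_, ?_⟩
    · intro x hx
      exact ⟨WType.mk (.inl ⟨x, hx⟩) PEmpty.elim, rfl⟩
    · intro F hFc hF y hy
      rcases F.eq_empty_or_nonempty with rfl | hFne
      · rw [hop0] at hy
        exact hy.elim
      · obtain ⟨f, hf⟩ := hFc.exists_eq_range hFne
        have h2 : ∀ n, ∃ t, ev X μ.out e t = f n := by
          intro n
          have h3 : f n ∈ F := by
            rw [hf]
            exact ⟨n, rfl⟩
          exact hF h3
        choose t ht using h2
        obtain ⟨m, hm⟩ := he F hy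
        refine ⟨WType.mk (.inr m) t, ?_⟩
        have h4 : ev X μ.out e (WType.mk (.inr m) t) = e (range fun n => ev X μ.out e (t n)) m :=
          rfl
        rw [h4]
        have h5 : (fun n => ev X μ.out e (t n)) = f := funext ht
        rw [h5, ← hf]
        exact hm
  refine (mk_le_mk_of_subset h1).trans (mk_range_le.trans ?_)
  refine WType.cardinalMk_le_of_le' ?_
  have hκ0 : ℵ₀ ≤ κ := hμ.trans hμκ
  have h2 : ∀ a : X ⊕ μ.out, κ ^ lift.{u} #(ar X μ.out a) ≤ κ := by
    rintro (x | m)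
    · have : #(ar X μ.out (.inl x)) = 0 := by
        change #PEmpty = 0
        simp
      rw [this]
      simp only [lift_zero, power_zero]
      exact one_le_aleph0.trans hκ0
    · have : lift.{u} #(ar X μ.out (.inr m)) = ℵ₀ := by
        change lift.{u} #ℕ = ℵ₀
        simp
      rw [this, hκ]
  refine (sum_le_sum _ _ h2).trans ?_
  rw [sum_const, lift_id, lift_id]
  have h3 : #(X ⊕ μ.out) ≤ κ := by
    rw [mk_sum, lift_id, lift_id, hM]
    exact (add_le_add hX hμκ).trans (add_eq_self hκ0).le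
  exact (mul_le_mul' h3 le_rfl).trans (mul_eq_self hκ0).le

/-- Hausdorff's formula in the case used here. -/
lemma succ_pow {c : Cardinal.{u}} (h0 : ℵ₀ ≤ c) (h : c ^ (ℵ₀ : Cardinal.{u}) = c) :
    (Order.succ c) ^ (ℵ₀ : Cardinal.{u}) = Order.succ c := by
  classical
  let I : Type u := (Order.succ c).ord.ToType
  have hI : #I = Order.succ c := by simp [I]
  have h0' : ℵ₀ ≤ Order.succ c := h0.trans (Order.le_succ c)
  have hIic : ∀ i : I, #(Iic i) ≤ c := by
    intro i
    have h2 : #(Iio i) < Order.succ c := by simpa [I] using mk_Iio_lt i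
    have h3 : #(Iic i) ≤ #(Iio i) + 1 := by
      rw [← Iio_insert]
      exact mk_insert_le
    refine h3.trans ((add_le_add (Order.lt_succ_iff.1 h2) le_rfl).trans ?_)
    exact (add_le_add le_rfl (one_le_aleph0.trans h0)).trans (add_eq_self h0).le
  have hb : ∀ f : ℕ → I, ∃ i, ∀ n, f n ≤ i := by
    intro f
    by_contra hcon
    push Not at hcon
    have h1 : (univ : Set I) ⊆ ⋃ n : ℕ, Iic (f n) := by
      intro i _
      obtain ⟨n, hn⟩ := hcon i
      exact mem_iUnion.2 ⟨n, hn.le⟩
    have h2 := mk_iUnion_le_lift (fun n : ℕ => Iic (f n))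
    rw [lift_uzero] at h2
    have h3 : (⨆ n : ℕ, lift.{0} #(Iic (f n))) ≤ c := ciSup_le' fun n => by
      rw [lift_uzero]
      exact hIic _
    have h4 : lift.{u, 0} #ℕ = ℵ₀ := by simp
    rw [h4] at h2
    have h5 : #I ≤ c := by
      rw [← mk_univ]
      refine (mk_le_mk_of_subset h1).trans (h2.trans ((mul_le_mul' le_rfl h3).trans ?_))
      rw [aleph0_mul_eq h0]
    rw [hI] at h5
    exact absurd h5 (not_le.2 (Order.lt_succ c))
  refine le_antisymm ?_ (self_le_power _ one_le_aleph0)
  have h6 : #(ℕ → I) = (Order.succ c) ^ (ℵ₀ : Cardinal.{u}) := by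
    rw [mk_arrow, hI]
    simp
  rw [← h6]
  choose b hb using hb
  have h7 : #(ℕ → I) ≤ #(Σ i : I, ℕ → Iic i) := by
    refine mk_le_of_injective (f := fun f => ⟨b f, fun n => ⟨f n, hb f n⟩⟩) ?_
    intro f g hfg
    funext n
    have h8 : ∀ s t : (Σ i : I, ℕ → Iic i), s = t → (s.2 n).1 = (t.2 n).1 := by
      rintro s _ rfl
      rfl
    exact h8 _ _ hfg
  refine h7.trans ?_
  rw [mk_sigma]
  have h9 : ∀ i : I, #(ℕ → Iic i) ≤ c := by
    intro i
    rw [mk_arrow]
    have : lift.{u, 0} #ℕ = ℵ₀ := by simp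
    rw [this, lift_uzero]
    exact (power_le_power_right (hIic i)).trans h.le
  refine (sum_le_sum _ _ h9).trans ?_
  rw [sum_const, lift_id, lift_id, hI]
  exact (mul_le_mul' le_rfl (Order.le_succ c)).trans (mul_eq_self h0').le

lemma pow_of_le_iSup {κ : Cardinal.{u}}
    (hκ : κ ≤ ⨆ n : ℕ, (Order.succ)^[n] Cardinal.continuum.{u}) (c : Cardinal.{u})
    (hc : Cardinal.continuum.{u} ≤ c) (hcκ : c < κ) : c ^ (ℵ₀ : Cardinal.{u}) = c := by
  obtain ⟨n, hn⟩ := exists_lt_of_lt_ciSup (hcκ.trans_le hκ)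
  have hge : ∀ n : ℕ, Cardinal.continuum.{u} ≤ (Order.succ)^[n] Cardinal.continuum.{u} := by
    intro n
    induction n with
    | zero => exact le_rfl
    | succ n ih =>
      rw [Function.iterate_succ_apply']
      exact ih.trans (Order.le_succ _)
  have hpow : ∀ n : ℕ, ((Order.succ)^[n] Cardinal.continuum.{u}) ^ (ℵ₀ : Cardinal.{u}) =
      (Order.succ)^[n] Cardinal.continuum.{u} := by
    intro n
    induction n with
    | zero => exact continuum_power_aleph0
    | succ n ih =>
      rw [Function.iterate_succ_apply']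
      exact succ_pow (aleph0_le_continuum.trans (hge n)) ih
  induction n with
  | zero => exact absurd hc (not_le.2 hn)
  | succ n ih =>
    rw [Function.iterate_succ_apply', Order.lt_succ_iff] at hn
    rcases hn.eq_or_lt with h | h
    · rw [h]
      exact hpow n
    · exact ih h

end Pool.Agent.H33Core
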