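import Pool.Agent.H33Core.Count

/-!
# The coherent core for countable sets with one set of neighbours per vertex
-/

namespace Pool.Agent.H33Core

open Set Cardinal Pool.Agent.H52EH

universe u

/-- coherent systems for countable sets, as functional sets of pairs -/
def CFP {V : Type u} (G : SimpleGraph V) (μ : Cardinal.{u}) (P : Set (V × Set V)) : Prop :=
  P ⊆ CStep G μ P ∧ ∀ x W W', (x, W) ∈ P → (x, W') ∈ P → W = W'

lemma cstep_mono {V : Type u} (G : SimpleGraph V) {μ : Cardinal.{u}} {P P' : Set (V × Set V)}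
    (h : P ⊆ P') : CStep G μ P ⊆ CStep G μ P' := by
  rintro p ⟨h1, h2, h3⟩
  refine ⟨h1, h2, fun F hFc hF => (h3 F hFc hF).trans_le (mk_le_mk_of_subset ?_)⟩
  rintro z ⟨W', hFW, hz⟩
  exact ⟨W', hFW, h hz⟩

lemma exists_cop {V : Type u} (G : SimpleGraph V) {μ : Cardinal.{u}}
    (hFP : ∀ P, CFP G μ P → P = ∅) (W : V → Set V) (hW : ∀ x, ∀ y ∈ W x, G.Adj x y) :
    ∃ op : Set V → Set V, (∀ F, #(op F) ≤ μ) ∧ op ∅ = ∅ ∧
      ∀ x, ¬CC G (W x) → ∃ F : Set V, F.Countable ∧ F.Nonempty ∧ F ⊆ W x ∧ x ∈ op F := by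
  classical
  let Γ : Set V → Set V := fun Q =>
    {x | ¬CC G (W x) ∧ ∀ F : Set V, F.Countable → F ⊆ W x → μ < #{z | z ∈ Q ∧ F ⊆ W z}}
  obtain ⟨Q, rk, hQ, hrk⟩ := exists_rank Γ
  have hQe : Q = ∅ := by
    have h1 : CFP G μ {q | q.1 ∈ Q ∧ q.2 = W q.1} := by
      refine ⟨?_, ?_⟩
      · rintro ⟨x, W₁⟩ ⟨hx, hW₁⟩
        obtain rfl : W₁ = W x := hW₁
        obtain ⟨b, c⟩ := hQ hx
        refine ⟨hW x, b, fun F hFc hF => (c F hFc hF).trans_le (mk_le_mk_of_subset ?_)⟩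
        rintro z ⟨hz, hFz⟩
        exact ⟨W z, hFz, hz, rfl⟩
      · rintro x W₁ W₂ ⟨-, h⟩ ⟨-, h'⟩
        exact h.trans h'.symm
    have h2 := hFP _ h1
    by_contra hne
    obtain ⟨x, hx⟩ := nonempty_iff_ne_empty.2 hne
    have h3 : (x, W x) ∈ (∅ : Set (V × Set V)) := h2 ▸ ⟨hx, rfl⟩
    exact h3
  subst hQe
  let op : Set V → Set V := fun F => if F = ∅ then ∅ else
    {y | F ⊆ W y ∧ #{z | rk y ≤ rk z ∧ F ⊆ W z} ≤ μ}
  have hopdef : ∀ F : Set V, F.Nonempty → op F =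
      {y | F ⊆ W y ∧ #{z | rk y ≤ rk z ∧ F ⊆ W z} ≤ μ} := fun F hF => if_neg hF.ne_empty
  have hempty : op ∅ = ∅ := if_pos rfl
  refine ⟨op, ?_, hempty, ?_⟩
  · intro F
    rcases (op F).eq_empty_or_nonempty with he | hne
    · rw [he, mk_eq_zero]
      exact zero_le
    · have hF : F.Nonempty := by
        rw [nonempty_iff_ne_empty]
        rintro rfl
        rw [hempty] at hne
        exact not_nonempty_empty hne
      obtain ⟨y, hy, hy'⟩ := csInf_mem (hne.image rk)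
      have hmin : ∀ z ∈ op F, rk y ≤ rk z := fun z hz => by
        rw [hy']
        exact csInf_le' ⟨z, hz, rfl⟩
      have hy2 := hy
      rw [hopdef F hF] at hy2
      refine (mk_le_mk_of_subset ?_).trans hy2.2
      intro z hz
      refine ⟨hmin z hz, ?_⟩
      rw [hopdef F hF] at hz
      exact hz.1
  · intro x hx
    have h1 := hrk x (notMem_empty x)
    have h2 : ∃ F : Set V, F.Countable ∧ F ⊆ W x ∧ #{z | rk x ≤ rk z ∧ F ⊆ W z} ≤ μ := by
      by_contra hcon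
      push Not at hcon
      exact h1 ⟨hx, hcon⟩
    obtain ⟨F, hFc, hF, hFμ⟩ := h2
    rcases F.eq_empty_or_nonempty with rfl | hne
    · have hne : ∃ y, y ∈ W x := by
        by_contra hno
        push Not at hno
        exact hx ⟨fun _ => 0, fun y hy => absurd hy (hno y)⟩
      obtain ⟨y, hy⟩ := hne
      refine ⟨{y}, countable_singleton y, singleton_nonempty y, singleton_subset_iff.2 hy, ?_⟩
      rw [hopdef _ (singleton_nonempty y)]
      refine ⟨singleton_subset_iff.2 hy, (mk_le_mk_of_subset ?_).trans hFμ⟩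
      rintro z ⟨hz, -⟩
      exact ⟨hz, empty_subset _⟩
    · refine ⟨F, hFc, hne, hF, ?_⟩
      rw [hopdef _ hne]
      exact ⟨hF, hFμ⟩

/-- One round of closing the levels. -/
lemma exists_cnext {V : Type u} [Nonempty V] (G : SimpleGraph V) {μ : Cardinal.{u}} (hμ : ℵ₀ ≤ μ)
    (hFP : ∀ P, CFP G μ P → P = ∅) {ι : Type u} [LinearOrder ι] [WellFoundedLT ι]
    (κ : ι → Cardinal.{u}) (hμκ : ∀ i, μ ≤ κ i) (hκ : ∀ i, κ i ^ (ℵ₀ : Cardinal.{u}) = κ i)
    (lev : V → ι) (hlev : ∀ i, #{x | lev x ≤ i} ≤ κ i) :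
    ∃ lev' : V → ι, (∀ x, lev' x ≤ lev x) ∧ (∀ i, #{x | lev' x ≤ i} ≤ κ i) ∧
      ∀ x, ¬CC G {y | G.Adj x y ∧ lev y < lev x} → lev' x < lev x := by
  classical
  -- cofinal sequences
  let C : V → (ℕ → ι) → Prop := fun x f =>
    (∀ k, f k < lev x) ∧ ∀ j, j < lev x → ∃ k, j ≤ f k
  let Wk : ℕ → V → Set V := fun k x =>
    {y | G.Adj x y ∧ ∃ h : ∃ f, C x f, lev y ≤ h.choose k}
  have hopk : ∀ k, ∃ op : Set V → Set V, (∀ F, #(op F) ≤ μ) ∧ op ∅ = ∅ ∧
      ∀ x, ¬CC G (Wk k x) → ∃ F : Set V, F.Countable ∧ F.Nonempty ∧ F ⊆ Wk k x ∧ x ∈ op F :=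
    fun k => exists_cop G hFP (Wk k) (fun x y hy => hy.1)
  choose opk hopk1 hopk2 hopk3 using hopk
  obtain ⟨opi, hopi1, hopi2, hopi3⟩ := exists_cop G hFP
    (fun x => {y | G.Adj x y ∧ lev y < lev x}) (fun x y hy => hy.1)
  let op : Set V → Set V := fun F => opi F ∪ ⋃ k, opk k F
  have hop : ∀ F, #(op F) ≤ μ := by
    intro F
    refine (mk_union_le _ _).trans ((add_le_add (hopi1 F) ?_).trans (add_eq_self hμ).le)
    have h2 := mk_iUnion_le_lift (fun k : ℕ => opk k F)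
    rw [lift_uzero] at h2
    have h3 : (⨆ k : ℕ, lift.{0} #(opk k F)) ≤ μ := ciSup_le' fun k => by
      rw [lift_uzero]
      exact hopk1 k F
    have h4 : lift.{u, 0} #ℕ = ℵ₀ := by simp
    rw [h4] at h2
    refine h2.trans ((mul_le_mul' le_rfl h3).trans ?_)
    rw [aleph0_mul_eq hμ]
  have hop0 : op ∅ = ∅ := by
    simp only [op, hopi2, hopk2, iUnion_empty, union_empty]
  have hex : ∀ x, {i | x ∈ ccl op {y | lev y ≤ i}}.Nonempty := fun x =>
    ⟨lev x, subset_ccl op _ (show lev x ≤ lev x from le_rfl)⟩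
  let lev' : V → ι := fun x =>
    WellFounded.min (wellFounded_lt (α := ι)) {i | x ∈ ccl op {y | lev y ≤ i}} (hex x)
  have h1 : ∀ x, x ∈ ccl op {y | lev y ≤ lev' x} := fun x =>
    WellFounded.min_mem (wellFounded_lt (α := ι)) {i | x ∈ ccl op {y | lev y ≤ i}} (hex x)
  have h2 : ∀ x i, x ∈ ccl op {y | lev y ≤ i} → lev' x ≤ i := fun x i hi =>
    not_lt.1 (WellFounded.not_lt_min (wellFounded_lt (α := ι))
      {i | x ∈ ccl op {y | lev y ≤ i}} hi)
  have h5 : ∀ (F : Set V) (i : ι), F.Countable → (∀ y ∈ F, lev y ≤ i) → ∀ x ∈ op F,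
      lev' x ≤ i := fun F i hFc hF x hx =>
    h2 x i (ccl_closed op {y | lev y ≤ i} hFc (fun y hy => subset_ccl op _ (hF y hy)) hx)
  refine ⟨lev', ?_, ?_, ?_⟩
  · intro x
    exact h2 x (lev x) (subset_ccl op _ (show lev x ≤ lev x from le_rfl))
  · intro i
    have h3 : {x | lev' x ≤ i} ⊆ ccl op {y | lev y ≤ i} := by
      intro x hx
      exact ccl_mono op (fun y hy => le_trans hy hx) (h1 x)
    exact (mk_le_mk_of_subset h3).trans (mk_ccl_le hμ (hμκ i) (hκ i) op hop hop0 _ (hlev i))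
  · intro x hcc
    by_cases hC : ∃ f, C x f
    · have hk : ∃ k, ¬CC G (Wk k x) := by
        by_contra hno
        push Not at hno
        refine hcc (cc_of_cover G _ (fun k => Wk k x) hno ?_)
        rintro y ⟨hxy, hy⟩
        obtain ⟨k, hk⟩ := hC.choose_spec.2 (lev y) hy
        exact ⟨k, hxy, hC, hk⟩
      obtain ⟨k, hk⟩ := hk
      obtain ⟨F, hFc, -, hF, hxF⟩ := hopk3 k x hk
      refine (h5 F (hC.choose k) hFc ?_ x (Or.inr (mem_iUnion.2 ⟨k, hxF⟩))).trans_lt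
        (hC.choose_spec.1 k)
      intro y hy
      obtain ⟨_, _, hle⟩ := hF hy
      exact hle
    · obtain ⟨F, hFc, hFne, hF, hxF⟩ := hopi3 x hcc
      by_cases hb : ∃ j, j < lev x ∧ ∀ y ∈ F, lev y ≤ j
      · obtain ⟨j, hj, hFj⟩ := hb
        exact (h5 F j hFc hFj x (Or.inl hxF)).trans_lt hj
      · exfalso
        push Not at hb
        obtain ⟨g, hg⟩ := hFc.exists_eq_range hFne
        apply hC
        refine ⟨fun n => lev (g n), ?_, ?_⟩
        · intro n
          have h6 : g n ∈ F := by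
            rw [hg]
            exact ⟨n, rfl⟩
          exact (hF h6).2
        · intro j hj
          obtain ⟨z, hz, hjz⟩ := hb j hj
          rw [hg] at hz
          obtain ⟨n, rfl⟩ := hz
          exact ⟨n, hjz.le⟩

/-- The limit levels. -/
lemma exists_climit_levels {V : Type u} (G : SimpleGraph V) {μ : Cardinal.{u}} (hμ : ℵ₀ ≤ μ)
    (hV : μ < #V) (hpow : ∀ c : Cardinal.{u}, μ ≤ c → c < #V → c ^ (ℵ₀ : Cardinal.{u}) = c)
    (hFP : ∀ P, CFP G μ P → P = ∅) :
    ∃ (ι : Type u) (_ : LinearOrder ι) (L : V → ι), (∀ i, #{x | L x = i} < #V) ∧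
      ∀ x, CC G {y | G.Adj x y ∧ L y < L x} := by
  classical
  have hVne : Nonempty V := by
    rw [← mk_ne_zero_iff]
    exact (aleph0_pos.trans_le (hμ.trans hV.le)).ne'
  let ι : Type u := (#V).ord.ToType
  have hι : #ι = #V := by simp [ι]
  obtain ⟨e⟩ : Nonempty (ι ≃ V) := Cardinal.eq.1 hι
  let κ : ι → Cardinal.{u} := fun i => max #(Iic i) μ
  have hκV : ∀ i, κ i < #V := by
    intro i
    refine max_lt ?_ hV
    have h2 : #(Iio i) < #V := by simpa [ι] using mk_Iio_lt i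
    have h3 : #(Iic i) ≤ #(Iio i) + 1 := by
      rw [← Iio_insert]
      exact mk_insert_le
    refine h3.trans_lt (add_lt_of_lt (hμ.trans hV.le) h2 ?_)
    exact (one_lt_aleph0).trans (hμ.trans_lt hV)
  have hμκ : ∀ i, μ ≤ κ i := fun i => le_max_right _ _
  have hκ : ∀ i, κ i ^ (ℵ₀ : Cardinal.{u}) = κ i := fun i => hpow _ (hμκ i) (hκV i)
  let T : Type u := {lev : V → ι // ∀ i, #{x | lev x ≤ i} ≤ κ i}
  let init : T := ⟨e.symm, by
    intro i
    refine le_trans ?_ (le_max_left _ _)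
    refine mk_le_of_injective (f := fun x => ⟨e.symm x.1, x.2⟩) ?_
    intro x y hxy
    apply Subtype.ext
    exact e.symm.injective ((Subtype.mk.injEq _ _ _ _).mp hxy)⟩
  have hstep : ∀ s : T, ∃ s' : T, (∀ x, s'.1 x ≤ s.1 x) ∧
      ∀ x, ¬CC G {y | G.Adj x y ∧ s.1 y < s.1 x} → s'.1 x < s.1 x := by
    rintro ⟨lev, hlev⟩
    obtain ⟨lev', h1, h2, h3⟩ := exists_cnext G hμ hFP κ hμκ hκ lev hlev
    exact ⟨⟨lev', h2⟩, h1, h3⟩
  let f : ℕ → T := fun n => Nat.rec init (fun _ s => (hstep s).choose) n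
  have hf1 : ∀ n x, (f (n + 1)).1 x ≤ (f n).1 x := fun n x => (hstep (f n)).choose_spec.1 x
  have hf2 : ∀ n x, ¬CC G {y | G.Adj x y ∧ (f n).1 y < (f n).1 x} →
      (f (n + 1)).1 x < (f n).1 x := fun n x => (hstep (f n)).choose_spec.2 x
  have hmono : ∀ x n m, n ≤ m → (f m).1 x ≤ (f n).1 x := by
    intro x n m h
    induction h with
    | refl => exact le_rfl
    | step _ ih => exact (hf1 _ x).trans ih
  have hex : ∀ x, ∃ n, ∀ m, n ≤ m → (f m).1 x = (f n).1 x := by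
    intro x
    have hne : (range fun n => (f n).1 x).Nonempty := ⟨_, 0, rfl⟩
    obtain ⟨n, hn⟩ := WellFounded.min_mem (wellFounded_lt (α := ι)) _ hne
    refine ⟨n, fun m hm => le_antisymm (hmono x n m hm) ?_⟩
    have h1 := WellFounded.not_lt_min (wellFounded_lt (α := ι)) (range fun n => (f n).1 x)
      (show (f m).1 x ∈ _ from ⟨m, rfl⟩)
    rw [← hn] at h1
    exact not_lt.1 h1
  choose N hN using hex
  let L : V → ι := fun x => (f (N x)).1 x
  have hL : ∀ x m, N x ≤ m → (f m).1 x = L x := hN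
  refine ⟨ι, inferInstance, L, ?_, ?_⟩
  · intro i
    have h1 : {x | L x = i} ⊆ ⋃ n : ℕ, {x | (f n).1 x ≤ i} := by
      intro x hx
      exact mem_iUnion.2 ⟨N x, le_of_eq hx⟩
    have h2 := mk_iUnion_le_lift (fun n : ℕ => {x | (f n).1 x ≤ i})
    rw [lift_uzero] at h2
    have hmax0 : ℵ₀ ≤ κ i := hμ.trans (hμκ i)
    have h3 : (⨆ n : ℕ, lift.{0} #{x | (f n).1 x ≤ i}) ≤ κ i := ciSup_le' fun n => by
      rw [lift_uzero]
      exact (f n).2 i
    have h4 : lift.{u, 0} #ℕ = ℵ₀ := by simp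
    rw [h4] at h2
    refine (mk_le_mk_of_subset h1).trans_lt ((h2.trans ?_).trans_lt (hκV i))
    refine (mul_le_mul' le_rfl h3).trans ?_
    rw [aleph0_mul_eq hmax0]
  · intro x
    have hcc : ∀ n, N x ≤ n → CC G {y | G.Adj x y ∧ (f n).1 y < (f n).1 x} := by
      intro n hn
      by_contra hcon
      have h1 := hf2 n x hcon
      rw [hL x (n + 1) (hn.trans (Nat.le_succ n)), hL x n hn] at h1
      exact lt_irrefl _ h1
    have hcc' : ∀ n, ∃ c : V → ℕ, N x ≤ n → ∀ y z, G.Adj x y → G.Adj x z →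
        (f n).1 y < (f n).1 x → (f n).1 z < (f n).1 x → G.Adj y z → c y ≠ c z := by
      intro n
      by_cases hn : N x ≤ n
      · obtain ⟨c, hc⟩ := hcc n hn
        exact ⟨c, fun _ y z hxy hxz hy hz => hc y ⟨hxy, hy⟩ z ⟨hxz, hz⟩⟩
      · exact ⟨fun _ => 0, fun h => absurd h hn⟩
    choose c hc using hcc'
    refine ⟨fun y => Nat.pair (max (N x) (N y)) (c (max (N x) (N y)) y), ?_⟩
    rintro y ⟨hxy, hy⟩ z ⟨hxz, hz⟩ hyz he
    rw [Nat.pair_eq_pair] at he
    obtain ⟨he1, he2⟩ := he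
    rw [← he1] at he2
    refine hc (max (N x) (N y)) (le_max_left _ _) y z hxy hxz ?_ ?_ hyz he2
    · rw [hL y _ (le_max_right _ _), hL x _ (le_max_left _ _)]
      exact hy
    · rw [hL x _ (le_max_left _ _), he1, hL z _ (le_max_right _ _)]
      exact hz

lemma push_cstep {V : Type u} (G : SimpleGraph V) {μ : Cardinal.{u}} {p : V → Prop}
    (P : Set ({x // p x} × Set {x // p x}))
    (hP : P ⊆ CStep (G.comap (Subtype.val : {x // p x} → V)) μ P) :
    push P ⊆ CStep G μ (push P) := by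
  rintro _ ⟨⟨x, W⟩, hr, rfl⟩
  exact cstep_comap G (push P) P (fun z W' h => ⟨(z, W'), h, rfl⟩) x W (hP hr)

/-- If there is no coherent system then the graph is a countable union of triangle-free graphs. -/
theorem triColorable_of_no_ccoh {μ : Cardinal.{u}} (hμ : ℵ₀ ≤ μ) :
    ∀ (V : Type u) (G : SimpleGraph V),
    (∀ c : Cardinal.{u}, μ ≤ c → c < #V → c ^ (ℵ₀ : Cardinal.{u}) = c) →
    (∀ (A : Type u) (f : A → V), Function.Injective f → #A ≤ μ → TriColorable (G.comap f)) →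
    (∀ P, CFP G μ P → P = ∅) → TriColorable G := by
  suffices H : ∀ (κ : Cardinal.{u}) (V : Type u), #V = κ → ∀ (G : SimpleGraph V),
      (∀ c : Cardinal.{u}, μ ≤ c → c < #V → c ^ (ℵ₀ : Cardinal.{u}) = c) →
      (∀ (A : Type u) (f : A → V), Function.Injective f → #A ≤ μ → TriColorable (G.comap f)) →
      (∀ P, CFP G μ P → P = ∅) → TriColorable G from
    fun V => H #V V rfl
  intro κ
  induction κ using WellFoundedLT.induction with
  | ind κ ih =>
  intro V hV G hpow hsmall hcoh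
  classical
  rcases le_or_gt #V μ with hc | hc
  · exact hsmall V id Function.injective_id hc
  obtain ⟨ι, _, lev, hlev, hM⟩ := exists_climit_levels G hμ hc hpow hcoh
  refine triColorable_mono (le_inner_sup_cross G lev)
    (triColorable_sup (triColorable_inner G lev ?_) (triColorable_cross G lev ?_))
  · intro i
    have hlt' : #{x // lev x = i} < #V := hlev i
    have hlt : #{x // lev x = i} < κ := hV ▸ hlt'
    refine ih _ hlt {x // lev x = i} rfl _
      (fun c h1 h2 => hpow c h1 (h2.trans hlt'))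
      (fun A f hf hA => hsmall A (fun a => (f a).1) (Subtype.val_injective.comp hf) hA) ?_
    intro P hP
    have h1 := hcoh (push P) ⟨push_cstep G P hP.1, push_fun P hP.2⟩
    by_contra hne
    obtain ⟨r, hr⟩ := nonempty_iff_ne_empty.2 hne
    have h3 : (r.1.1, Subtype.val '' r.2) ∈ (∅ : Set (V × Set V)) := h1 ▸ ⟨r, hr, rfl⟩
    exact h3
  · intro x
    obtain ⟨c, hcc⟩ := hM x
    exact ⟨c, fun y z hxy hxz hyz hy hz => hcc y ⟨hxy, hy⟩ z ⟨hxz, hz⟩ hyz⟩

/-- **Functional coherent core for countable sets.** -/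
theorem core_cfun {V : Type u} (G : SimpleGraph V) {μ : Cardinal.{u}} (hμ : ℵ₀ ≤ μ)
    (hpow : ∀ c : Cardinal.{u}, μ ≤ c → c < #V → c ^ (ℵ₀ : Cardinal.{u}) = c)
    (hsmall : ∀ (A : Type u) (f : A → V), Function.Injective f → #A ≤ μ →
      TriColorable (G.comap f)) :
    ∃ P : Set (V × Set V), CFP G μ P ∧
      TriColorable (G.comap (Subtype.val : {x // ¬∃ W, (x, W) ∈ P} → V)) := by
  classical
  obtain ⟨P, hPmax⟩ := zorn_subset {P | CFP G μ P} (by
    intro c hc hchain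
    refine ⟨⋃₀ c, ⟨?_, ?_⟩, fun s hs => subset_sUnion_of_mem hs⟩
    · rintro q ⟨s, hs, hq⟩
      exact cstep_mono G (subset_sUnion_of_mem hs) ((hc hs).1 hq)
    · rintro x W W' ⟨s, hs, hW⟩ ⟨s', hs', hW'⟩
      rcases hchain.total hs hs' with h | h
      · exact (hc hs').2 x W W' (h hW) hW'
      · exact (hc hs).2 x W W' hW (h hW'))
  have hP : CFP G μ P := hPmax.prop
  refine ⟨P, hP, ?_⟩
  refine triColorable_of_no_ccoh hμ _ _ (fun c h1 h2 => hpow c h1 (h2.trans_le ?_))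
    (fun A f hf hA => hsmall A (fun a => (f a).1) (Subtype.val_injective.comp hf) hA) ?_
  · exact mk_subtype_le _
  intro R hR
  have h1 : CFP G μ (P ∪ push R) := by
    refine ⟨union_subset (hP.1.trans (cstep_mono G subset_union_left))
      ((push_cstep G R hR.1).trans (cstep_mono G subset_union_right)), ?_⟩
    have hmix : ∀ x W W', (x, W) ∈ P → (x, W') ∈ push R → False := by
      rintro x W W' hW ⟨⟨y, W''⟩, -, he⟩
      rw [Prod.mk.injEq] at he
      exact y.2 ⟨W, he.1 ▸ hW⟩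
    rintro x W W' (hW | hW) (hW' | hW')
    · exact hP.2 x W W' hW hW'
    · exact (hmix x W W' hW hW').elim
    · exact (hmix x W' W hW' hW).elim
    · exact push_fun R hR.2 x W W' hW hW'
  have h2 : P ∪ push R ⊆ P := hPmax.le_of_ge h1 subset_union_left
  by_contra hne
  obtain ⟨⟨x, W⟩, hr⟩ := nonempty_iff_ne_empty.2 hne
  exact x.2 ⟨_, h2 (Or.inr ⟨(x, W), hr, rfl⟩)⟩

end Pool.Agent.H33Core
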