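import Pool.Agent.H33Core.Core

/-!
# The coherent core: pairs of a vertex and a set of its neighbours
-/

namespace Pool.Agent.H33Core

open Set Cardinal Pool.Agent.H52EH

universe u

/-- The pairs `(x, W)`, `W` a set of neighbours of `x` which spans a graph of uncountable chromatic
number, such that for every finite `F ⊆ W` there are more than `μ` vertices `z` with a pair
`(z, W')` in `P`, `F ⊆ W'`. -/
def Step {V : Type u} (G : SimpleGraph V) (μ : Cardinal.{u}) (P : Set (V × Set V)) :
    Set (V × Set V) :=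
  {p | (∀ y ∈ p.2, G.Adj p.1 y) ∧
    (¬∃ c : V → ℕ, ∀ y ∈ p.2, ∀ z ∈ p.2, G.Adj y z → c y ≠ c z) ∧
    ∀ F : Finset V, ↑F ⊆ p.2 → μ < #{z | ∃ W' : Set V, ↑F ⊆ W' ∧ (z, W') ∈ P}}

lemma step_comap {V : Type u} {p : V → Prop} (G : SimpleGraph V) {μ : Cardinal.{u}}
    (P : Set (V × Set V)) (P' : Set ({x // p x} × Set {x // p x}))
    (hP : ∀ z W, (z, W) ∈ P' → (z.1, Subtype.val '' W) ∈ P)
    (x : {x // p x}) (W : Set {x // p x})
    (h : (x, W) ∈ Step (G.comap (Subtype.val : {x // p x} → V)) μ P') :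
    (x.1, Subtype.val '' W) ∈ Step G μ P := by
  classical
  obtain ⟨hW1, hW2, hW3⟩ := h
  refine ⟨?_, ?_, ?_⟩
  · rintro _ ⟨y, hy, rfl⟩
    exact hW1 y hy
  · rintro ⟨c, hc⟩
    exact hW2 ⟨fun y => c y.1, fun y hy z hz h => hc y.1 ⟨y, hy, rfl⟩ z.1 ⟨z, hz, rfl⟩ h⟩
  · intro F hF
    refine (hW3 (F.subtype p) ?_).trans_le ?_
    · intro y hy
      rw [Finset.mem_coe, Finset.mem_subtype] at hy
      obtain ⟨y', hy', he⟩ := hF hy
      exact (Subtype.val_injective he) ▸ hy'
    · refine mk_le_of_injective (f := fun z => ⟨z.1.1, ?_⟩) ?_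
      · obtain ⟨W', hFW, hz⟩ := z.2
        refine ⟨Subtype.val '' W', ?_, hP _ _ hz⟩
        intro y hy
        obtain ⟨y', -, he⟩ := hF hy
        exact ⟨⟨y, he ▸ y'.2⟩, hFW (Finset.mem_coe.2 (Finset.mem_subtype.2 hy)), rfl⟩
      · intro z z' hzz
        apply Subtype.ext
        apply Subtype.ext
        exact (Subtype.mk.injEq _ _ _ _).mp hzz

/-- The colouring along a rank of pairs. -/
theorem triColorable_of_pairRank {μ : Cardinal.{u}} (hμ : ℵ₀ ≤ μ) :
    ∀ (V : Type u) (G : SimpleGraph V),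
    (∀ (A : Type u) (f : A → V), Function.Injective f → #A ≤ μ → TriColorable (G.comap f)) →
    ∀ (rk : V × Set V → Ordinal.{u}),
    (∀ p, p ∉ Step G μ {q | rk p ≤ rk q}) → TriColorable G := by
  suffices H : ∀ (κ : Cardinal.{u}) (V : Type u), #V = κ → ∀ (G : SimpleGraph V),
      (∀ (A : Type u) (f : A → V), Function.Injective f → #A ≤ μ → TriColorable (G.comap f)) →
      ∀ (rk : V × Set V → Ordinal.{u}), (∀ p, p ∉ Step G μ {q | rk p ≤ rk q}) →
        TriColorable G from
    fun V => H #V V rfl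
  intro κ
  induction κ using WellFoundedLT.induction with
  | ind κ ih =>
  intro V hV G hsmall rk hG
  classical
  rcases le_or_gt #V μ with hc | hc
  · exact hsmall V id Function.injective_id hc
  -- the closing operation
  let Y : Finset V → Ordinal.{u} → Set V := fun F a => {z | ∃ W' : Set V, ↑F ⊆ W' ∧ a ≤ rk (z, W')}
  let op : Finset V → Set V := fun F => if F = ∅ then ∅ else {y | ∃ a, #(Y F a) ≤ μ ∧ y ∈ Y F a}
  have hopdef : ∀ F : Finset V, F ≠ ∅ → op F = {y | ∃ a, #(Y F a) ≤ μ ∧ y ∈ Y F a} :=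
    fun F hF => if_neg hF
  have hempty : op ∅ = ∅ := if_pos rfl
  have hop : ∀ F, #(op F) ≤ μ := by
    intro F
    rcases (op F).eq_empty_or_nonempty with he | hne
    · rw [he, mk_eq_zero]
      exact zero_le
    · have hF : F ≠ ∅ := by
        rintro rfl
        rw [hempty] at hne
        exact not_nonempty_empty hne
      have hne' : {a | #(Y F a) ≤ μ}.Nonempty := by
        obtain ⟨y, hy⟩ := hne
        rw [hopdef F hF] at hy
        obtain ⟨a, ha, -⟩ := hy
        exact ⟨a, ha⟩
      have h1 : #(Y F (sInf {a | #(Y F a) ≤ μ})) ≤ μ := csInf_mem hne'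
      refine (mk_le_mk_of_subset ?_).trans h1
      intro y hy
      rw [hopdef F hF] at hy
      obtain ⟨a, ha, W', hFW, hr⟩ := hy
      exact ⟨W', hFW, (csInf_le' (show a ∈ {a | #(Y F a) ≤ μ} from ha)).trans hr⟩
  obtain ⟨ι, _, lev, hlev, hM⟩ := Pool.Agent.H60EH.exists_levels_mu hμ hop hempty hc
  refine triColorable_mono (le_inner_sup_cross G lev)
    (triColorable_sup (triColorable_inner G lev ?_) (triColorable_cross G lev ?_))
  · intro i
    have hlt : #{x // lev x = i} < κ := hV ▸ hlev i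
    refine ih _ hlt {x // lev x = i} rfl _
      (fun A f hf hA => hsmall A (fun a => (f a).1) (Subtype.val_injective.comp hf) hA)
      (fun q => rk (q.1.1, Subtype.val '' q.2)) ?_
    rintro ⟨x, W⟩ hx
    exact hG (x.1, Subtype.val '' W)
      (step_comap G {q | rk (x.1, Subtype.val '' W) ≤ rk q} _ (fun z W' h => h) x W hx)
  · intro x
    obtain ⟨M, hM1, hM2, hM3⟩ := hM x
    by_contra hcon
    have key : ∀ F : Finset V, F ≠ ∅ → ↑F ⊆ {y | G.Adj x y ∧ lev y < lev x} →
        μ < #{z | ∃ W' : Set V, ↑F ⊆ W' ∧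
          (z, W') ∈ {q | rk (x, {y | G.Adj x y ∧ lev y < lev x}) ≤ rk q}} := by
      intro F hF hFS
      by_contra hcount
      refine hM2 (hM1 F (fun y hy => hM3 y (hFS hy).2) ?_)
      rw [hopdef F hF]
      exact ⟨rk (x, {y | G.Adj x y ∧ lev y < lev x}), not_lt.1 hcount,
        {y | G.Adj x y ∧ lev y < lev x}, hFS, le_rfl⟩
    refine hG (x, {y | G.Adj x y ∧ lev y < lev x}) ⟨fun y hy => hy.1, ?_, ?_⟩
    · rintro ⟨c, hcc⟩
      exact hcon ⟨c, fun y z hxy hxz hyz hy hz => hcc y ⟨hxy, hy⟩ z ⟨hxz, hz⟩ hyz⟩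
    · intro F hFS
      rcases eq_or_ne F ∅ with rfl | hF
      · -- some lower neighbour exists
        have hne : ∃ y, G.Adj x y ∧ lev y < lev x := by
          by_contra hno
          push Not at hno
          exact hcon ⟨fun _ => 0, fun y z hxy _ _ hy _ => absurd hy (not_lt.2 (hno y hxy))⟩
        obtain ⟨y, hy⟩ := hne
        refine (key {y} (Finset.singleton_ne_empty y) ?_).trans_le (mk_le_mk_of_subset ?_)
        · intro z hz
          rw [Finset.mem_coe, Finset.mem_singleton] at hz
          rw [hz]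
          exact hy
        · rintro z ⟨W', -, hW'⟩
          exact ⟨W', by simp, hW'⟩
      · exact key F hF hFS

/-- **Coherent core.** For every graph `G` and every infinite cardinal `μ` such that every set of
at most `μ` vertices spans a countable union of triangle-free graphs there is a set `P` of pairs
with `P ⊆ Step G μ P` such that the vertices without a pair in `P` span a countable union of
triangle-free graphs. -/
theorem core_pairs {V : Type u} (G : SimpleGraph V) {μ : Cardinal.{u}} (hμ : ℵ₀ ≤ μ)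
    (hsmall : ∀ (A : Type u) (f : A → V), Function.Injective f → #A ≤ μ →
      TriColorable (G.comap f)) :
    ∃ P : Set (V × Set V), P ⊆ Step G μ P ∧
      TriColorable (G.comap (Subtype.val : {x // ¬∃ W, (x, W) ∈ P} → V)) := by
  classical
  obtain ⟨P, rk, hP, hrk⟩ := exists_rank (Step G μ)
  refine ⟨P, hP, ?_⟩
  refine triColorable_of_pairRank hμ _ _
    (fun A f hf hA => hsmall A (fun a => (f a).1) (Subtype.val_injective.comp hf) hA)
    (fun q => rk (q.1.1, Subtype.val '' q.2)) ?_
  rintro ⟨x, W⟩ hx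
  exact hrk (x.1, Subtype.val '' W) (fun h => x.2 ⟨_, h⟩)
    (step_comap G {q | rk (x.1, Subtype.val '' W) ≤ rk q} _ (fun z W' h => h) x W hx)

/-- If `Q` and its complement span countable unions of triangle-free graphs then so does `V`. -/
theorem triColorable_of_compl {V : Type u} (G : SimpleGraph V) (Q : V → Prop)
    (hT : TriColorable (G.comap (Subtype.val : {x // Q x} → V)))
    (hc : TriColorable (G.comap (Subtype.val : {x // ¬Q x} → V))) : TriColorable G := by
  classical
  have htr : ∀ p q : V → Prop, p = q → TriColorable (G.comap (Subtype.val : {x // p x} → V)) →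
      TriColorable (G.comap (Subtype.val : {x // q x} → V)) := by
    rintro p _ rfl h
    exact h
  refine triColorable_mono (le_inner_sup_cross G (fun x => Q x))
    (triColorable_sup (triColorable_inner G _ ?_) ?_)
  · intro i
    by_cases hi : i
    · exact htr _ _ (by funext x; simp [hi]) hT
    · exact htr _ _ (by funext x; simp [hi]) hc
  · refine ⟨fun _ _ => 0, fun _ _ => rfl, ?_⟩
    rintro x y z ⟨-, a⟩ ⟨-, b⟩ ⟨-, c⟩
    exfalso
    by_cases hx : Q x <;> by_cases hy : Q y <;> by_cases hz : Q z <;>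
      simp [hx, hy, hz] at a b c

/-- **Erdős-Hajnal.** In a set spanning a graph of uncountable chromatic number there is, for every
`n`, an `n`-set with uncountably many common neighbours in the set. -/
theorem exists_many_common {V : Type u} (G : SimpleGraph V) (W : Set V)
    (hW : ¬∃ c : V → ℕ, ∀ y ∈ W, ∀ z ∈ W, G.Adj y z → c y ≠ c z) (n : ℕ) :
    ∃ A : Finset V, A.card = n ∧ ↑A ⊆ W ∧ ¬{y | y ∈ W ∧ ∀ a ∈ A, G.Adj y a}.Countable := by
  classical
  by_contra hcon
  push Not at hcon
  apply hW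
  obtain ⟨c, hcc⟩ := exists_coloring n W (G.comap Subtype.val) (by
    intro F hF
    have h1 := hcon (F.map (Function.Embedding.subtype _)) (by rw [Finset.card_map, hF]) (by
      intro y hy
      obtain ⟨z, -, rfl⟩ := Finset.mem_map.1 (Finset.mem_coe.1 hy)
      exact z.2)
    refine (h1.preimage (Subtype.val_injective (p := fun x => x ∈ W))).mono ?_
    intro x hx
    refine ⟨x.2, ?_⟩
    intro a ha
    obtain ⟨z, hz, rfl⟩ := Finset.mem_map.1 ha
    exact hx z hz)
  refine ⟨fun y => if h : y ∈ W then c ⟨y, h⟩ else 0, ?_⟩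
  intro y hy z hz hyz
  simp only [hy, hz, dif_pos]
  exact hcc ⟨y, hy⟩ ⟨z, hz⟩ hyz

end Pool.Agent.H33Core
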